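import Pool.Agent.Lib.LinSpace.Idx.Steps
import Pool.Agent.Lib.LinSpace.Load

/-!
The recursive algorithm: instances, guesses, tests, and subinstances, all in linear space.
-/

set_option autoImplicit false
set_option linter.unusedSimpArgs false
set_option linter.unusedSectionVars false

namespace Pool.Agent.Lib.LinSpace.Idx

open Classical

/-! ### Types -/

section Types

variable (N F T : Type)

/-- Small demands. -/
abbrev Pr := Leaf N T × Option (Leaf N T)

/-- Headers of instances. -/
def Hx : Type := (Leaf N T × F × Set N) ⊕ (Set N × Sx N F × Sx N F × Set (Pr N T))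

/-- Headers of guesses. -/
def Gx : Type := (N × N × N) × F × Set N × Set N × Sx N F × Set (Pr N T) × Set (Pr N T)

/-- Lists of an instance. -/
abbrev Lx := W N T × (W N T × List (Leaf N T × W N T))

/-- Lists of a guess. -/
abbrev Ly := W N T × (W N T × (List (Leaf N T × W N T) × (List (Leaf N T × W N T) ×
  (T3 N T × (T3 N T × List (Leaf N T × T3 N T))))))

/-- Instances. -/
abbrev Ins := Hx N F T × Lx N T

/-- Guesses. -/
abbrev Gue := Gx N F T × Ly N T

variable {N F T}

theorem leaf_finite [Finite N] [Finite T] : Finite (Leaf N T) := by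
  let f : Leaf N T → N ⊕ T ⊕ N := fun l => match l with
    | .bot D => .inl D
    | .ter a => .inr (.inl a)
    | .hat X => .inr (.inr X)
  refine Finite.of_injective f ?_
  intro a b h
  cases a <;> cases b <;> simp_all [f]

end Types

variable {N F T : Type} [Finite N] [Finite F] [Finite T] [Nonempty N] [Nonempty F]

instance : Finite (Leaf N T) := leaf_finite
instance : Finite (Hx N F T) := by unfold Hx; infer_instance
instance : Finite (Gx N F T) := by unfold Gx; infer_instance
instance : Nonempty (Leaf N T) := ⟨.bot (Classical.arbitrary N)⟩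
instance : Nonempty (Gx N F T) := by unfold Gx; infer_instance
noncomputable instance : Enc (Leaf N T) := encFinite _
noncomputable instance : Enc (Option (Leaf N T)) := encFinite _
noncomputable instance : Enc (Hx N F T) := encFinite _
noncomputable instance : Enc (Gx N F T) := encFinite _
noncomputable instance : Rd (Leaf N T) := rdFinite _
noncomputable instance : Rd (Gx N F T) := rdFinite _

/-! ### Basic functions -/

/-- The demands with at least two leaves. -/
noncomputable def big (l : List (Leaf N T × W N T)) : List (Leaf N T × W N T) :=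
  l.filter fun d => decide (2 ≤ d.2.length)

/-- The small demands are all in `P`. -/
noncomputable def small (P : Set (Pr N T)) (l : List (Leaf N T × W N T)) : Bool :=
  l.all fun d => decide (2 ≤ d.2.length) || decide (((d.1, d.2.head?) : Pr N T) ∈ P)

variable {α β γ δ : Type} [Enc α] [Enc β] [Enc γ] [Enc δ]

theorem lin_two {u : α → List γ} (hu : Lin u) : Lin (fun x => decide (2 ≤ (u x).length)) :=
  (Lin.lenLe (Lin.const [false, false]) hu).of_eq fun x => by simp

theorem lin_head? {u : α → W N T} (hu : Lin u) : Lin (fun x => (u x).head?) := by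
  have hs : Lin (fun l : Leaf N T => (some l : Option (Leaf N T))) := Lin.of_finite _
  refine ((Lin.isEmpty hu).ite (Lin.const (none : Option (Leaf N T)))
    (hs.comp (hu.headD (Classical.arbitrary _)))).of_eq fun x => ?_
  cases u x <;> rfl

theorem lin_big {l : α → List (Leaf N T × W N T)} (hl : Lin l) : Lin (fun x => big (l x)) :=
  Lin.filter hl (lin_two Lin.snd)

theorem lin_small (P : Set (Pr N T)) {l : α → List (Leaf N T × W N T)} (hl : Lin l) :
    Lin (fun x => small P (l x)) := by
  have h1 : Lin (fun d : Leaf N T × W N T => ((d.1, d.2.head?) : Pr N T)) :=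
    Lin.fst.pair (lin_head? Lin.snd)
  have h2 : Lin (fun p : Pr N T => decide (p ∈ P)) := Lin.of_finite _
  exact Lin.all' hl ((lin_two Lin.snd).or (h2.comp h1))

theorem lin_top {l : α → List (Leaf N T × γ)} (hl : Lin l) : Lin (fun x => top (l x)) :=
  Lin.map' hl Lin.fst

theorem lin_fl {l : α → List (Leaf N T × W N T)} (hl : Lin l) : Lin (fun x => fl (l x)) :=
  Lin.flatMap hl Lin.snd

theorem lin_lo {l : α → T3 N T} (hl : Lin l) : Lin (fun x => lo (l x)) :=
  Lin.map' hl (Lin.fst.pair (lin_fl Lin.snd))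

theorem lin_lo2 {l : α → List (Leaf N T × T3 N T)} (hl : Lin l) : Lin (fun x => lo2 (l x)) :=
  Lin.map' hl (Lin.fst.pair (lin_fl (lin_lo Lin.snd)))

theorem lin_flatSnd {l : α → List (γ × List δ)} (hl : Lin l) :
    Lin (fun x => (l x).flatMap Prod.snd) := Lin.flatMap hl Lin.snd

/-- The first longest word of a list. -/
def mx {γ : Type} (l : List (List γ)) : List γ :=
  l.foldl (fun s b => if decide (b.length ≤ s.length) then s else b) []

theorem mx_fold_mem {γ : Type} (l : List (List γ)) (s : List γ) :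
    l.foldl (fun s b => if decide (b.length ≤ s.length) then s else b) s ∈ s :: l := by
  induction l generalizing s with
  | nil => simp
  | cons a l ih =>
    rw [List.foldl_cons]
    by_cases h : a.length ≤ s.length
    · rw [if_pos (by simpa using h)]
      rcases List.mem_cons.1 (ih s) with h1 | h1
      · rw [h1]; simp
      · exact List.mem_cons_of_mem _ (List.mem_cons_of_mem _ h1)
    · rw [if_neg (by simpa using h)]
      exact List.mem_cons_of_mem _ (ih a)

theorem mx_fold_ge {γ : Type} (l : List (List γ)) (s : List γ) : ∀ b ∈ s :: l,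
    b.length ≤ (l.foldl (fun s b => if decide (b.length ≤ s.length) then s else b) s).length := by
  induction l generalizing s with
  | nil => simp
  | cons a l ih =>
    intro b hb
    rw [List.foldl_cons]
    by_cases h : a.length ≤ s.length
    · rw [if_pos (by simpa using h)]
      have h1 := ih s s (List.mem_cons_self ..)
      rcases List.mem_cons.1 hb with rfl | hb
      · exact h1
      · rcases List.mem_cons.1 hb with rfl | hb
        · omega
        · exact ih s b (List.mem_cons_of_mem _ hb)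
    · rw [if_neg (by simpa using h)]
      have h1 := ih a a (List.mem_cons_self ..)
      rcases List.mem_cons.1 hb with rfl | hb
      · omega
      · exact ih a b hb

theorem length_le_mx {γ : Type} {l : List (List γ)} {b : List γ} (hb : b ∈ l) :
    b.length ≤ (mx l).length := mx_fold_ge l [] b (List.mem_cons_of_mem _ hb)

theorem mx_length_le {γ : Type} {l : List (List γ)} {K : ℕ} (h : ∀ b ∈ l, b.length ≤ K) :
    (mx l).length ≤ K := by
  rcases List.mem_cons.1 (mx_fold_mem l []) with h1 | h1
  · rw [mx, h1]; simp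
  · exact h _ h1

theorem Lin.mx {l : α → List (List γ)} (hl : Lin l) : Lin (fun x => mx (l x)) := by
  obtain ⟨q, hq, Hq⟩ := hl.size
  exact Lin.foldl (step := fun y : α × (List γ × List γ) =>
    if decide (y.2.2.length ≤ y.2.1.length) then y.2.1 else y.2.2) hl
    (Lin.const ([] : List γ))
    ((Lin.lenLe (Lin.snd.comp Lin.snd) (Lin.fst.comp Lin.snd)).ite (Lin.fst.comp Lin.snd)
      (Lin.snd.comp Lin.snd)) (q := fun n => q n + 1) (hq.add (LB.const 1)) (by
      intro x l' hl'
      have h1 := mx_fold_mem l' ([] : List γ)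
      have h2 : sz (l'.foldl (fun s b => if decide (b.length ≤ s.length) then s else b)
          ([] : List γ)) ≤ sz l' + 1 := by
        rcases List.mem_cons.1 h1 with h | h
        · rw [h, sz_nil]; omega
        · exact (sz_le_of_mem h).le.trans (by omega)
      exact h2.trans (by
        have := (sz_prefix_le hl').trans (Hq x)
        omega))

/-! ### The measure -/

/-- The measure of an instance, in unary. -/
def ms (x : Ins N F T) : List Bool :=
  match x.1 with
  | .inl _ => rep 4 (x.2.1.tail.map fun _ => false)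
  | .inr _ => rep 2 ((x.2.1 ++ (x.2.2.1 ++ x.2.2.2.flatMap fun d => d.2.tail)).map
      fun _ => false) ++ rep 3 ((mx ((x.2.1 ++ x.2.2.1) :: x.2.2.2.map fun d => d.2.tail)).map
      fun _ => false)

theorem ms_inl (h : Leaf N T × F × Set N) (x : Lx N T) :
    (ms ((.inl h, x) : Ins N F T)).length = 4 * (x.1.length - 1) := by
  simp [ms, rep_length]

theorem flatMap_tail_length (l : List (Leaf N T × W N T)) :
    (l.flatMap fun d => d.2.tail).length = sm l := by
  induction l with
  | nil => rfl
  | cons d l ih => rw [List.flatMap_cons, List.length_append, ih, sm_cons, List.length_tail]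

theorem ms_inr (h : Set N × Sx N F × Sx N F × Set (Pr N T)) (x : Lx N T) :
    (ms ((.inr h, x) : Ins N F T)).length = 2 * (x.1.length + x.2.1.length + sm x.2.2) +
      3 * (mx ((x.1 ++ x.2.1) :: x.2.2.map fun d => d.2.tail)).length := by
  simp only [ms, List.length_append, rep_length, List.length_map, flatMap_tail_length]
  omega

theorem lin_ms : Lin (ms : Ins N F T → List Bool) := by
  have h1 : Lin (fun x : Ins N F T => x.2.1) := Lin.fst.comp Lin.snd
  have h2 : Lin (fun x : Ins N F T => x.2.2.1) := Lin.fst.comp (Lin.snd.comp Lin.snd)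
  have h3 : Lin (fun x : Ins N F T => x.2.2.2) := Lin.snd.comp (Lin.snd.comp Lin.snd)
  have ht : Lin (fun d : Leaf N T × W N T => d.2.tail) := Lin.tail Lin.snd
  have hf : Lin (fun _ : Leaf N T => false) := Lin.const false
  refine (Lin.finCase (i := fun x : Ins N F T => x.1) Lin.fst (f := fun h x => ms (h, x.2))
    fun h => ?_)
  cases h with
  | inl h => exact Lin.rep (Lin.map' h1.tail hf) 4
  | inr h =>
    exact (Lin.rep (Lin.map' (h1.append (h2.append (Lin.flatMap h3 ht))) hf) 2).append
      (Lin.rep (Lin.map' (Lin.mx ((h1.append h2).cons (Lin.map' h3 ht))) hf) 3)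

/-- Well formed instances. -/
noncomputable def good (x : Ins N F T) : Bool :=
  match x.1 with
  | .inl _ => x.2.2.1.isEmpty && x.2.2.2.isEmpty
  | .inr _ => x.2.2.2.all fun d => decide (2 ≤ d.2.length)

theorem lin_good : Lin (good : Ins N F T → Bool) := by
  have h2 : Lin (fun x : Ins N F T => x.2.2.1) := Lin.fst.comp (Lin.snd.comp Lin.snd)
  have h3 : Lin (fun x : Ins N F T => x.2.2.2) := Lin.snd.comp (Lin.snd.comp Lin.snd)
  refine (Lin.finCase (i := fun x : Ins N F T => x.1) Lin.fst (f := fun h x => good (h, x.2))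
    fun h => ?_)
  cases h with
  | inl h => exact (Lin.isEmpty h2).and (Lin.isEmpty h3)
  | inr h => exact Lin.all' h3 (lin_two Lin.snd)

theorem good_inr {h : Set N × Sx N F × Sx N F × Set (Pr N T)} {x : Lx N T} :
    good ((.inr h, x) : Ins N F T) = true ↔ ∀ d ∈ x.2.2, 2 ≤ d.2.length := by
  simp [good]

theorem good_inl {h : Leaf N T × F × Set N} {x : Lx N T} :
    good ((.inl h, x) : Ins N F T) = true ↔ x.2.1 = [] ∧ x.2.2 = [] := by
  simp [good]

/-- Instances without branching. -/
def base (x : Ins N F T) : Bool := (ms x).isEmpty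

theorem lin_base : Lin (base : Ins N F T → Bool) := Lin.isEmpty lin_ms

variable (G : Gram N F T)

/-- The meaning of an instance. -/
def Sat (x : Ins N F T) : Prop :=
  match x.1 with
  | .inl h => Dm G h.2.2 [h.2.1] h.1 x.2.1
  | .inr h => ∃ ρ, Sp G h.1 ρ h.2.1 h.2.2.1 x.2.1 x.2.2.1 ∧
      (∀ d ∈ x.2.2.2, Dm G h.1 ρ d.1 d.2) ∧ h.2.2.2 ⊆ Prof G h.1 ρ

/-- The value of an instance without branching. -/
noncomputable def bval (x : Ins N F T) : Bool :=
  decide (Sat G (x.1, ((x.2.1.head?).toList, ([], []))))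

theorem lin_bval : Lin (bval G : Ins N F T → Bool) := by
  have h1 : Lin (fun x : Ins N F T => ((x.1, x.2.1.head?) : Hx N F T × Option (Leaf N T))) :=
    Lin.fst.pair (lin_head? (Lin.fst.comp Lin.snd))
  have h2 : Lin (fun p : Hx N F T × Option (Leaf N T) =>
      decide (Sat G ((p.1, (p.2.toList, ([], []))) : Ins N F T))) := Lin.of_finite _
  exact h2.comp h1

/-! ### Tests and subinstances -/

/-- The demands on the two children of a central node. -/
def twoD (h : Gx N F T) (y : Ly N T) : List (Leaf N T × W N T) :=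
  [(.bot h.1.2.1, fl y.2.2.1), (.bot h.1.2.2, fl y.2.2.2.1)]

/-- The demands above the critical level. -/
def upD (y : Ly N T) : List (Leaf N T × W N T) :=
  y.2.2.2.2.2.2.map fun d => (d.1, top d.2)

/-- The demands below the critical level. -/
def loD (y : Ly N T) : List (Leaf N T × W N T) :=
  y.2.2.1 ++ (y.2.2.2.1 ++ (y.2.2.2.2.1.flatMap Prod.snd ++ (y.2.2.2.2.2.1.flatMap Prod.snd ++
    (y.2.2.2.2.2.2.flatMap fun d => d.2.flatMap Prod.snd))))

/-- The finite part of the test at a critical level. -/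
def FC (h : Set N × Sx N F × Sx N F × Set (Pr N T)) (k : Gx N F T) : Prop :=
  pu G k.2.2.2.2.1 k.2.1 k.1.2.1 ∧ k.2.2.1 ⊆ Er G k.2.2.2.1 [k.2.1] ∧
  (∀ D ∈ k.2.2.2.1, ((.bot D, none) : Pr N T) ∈ k.2.2.2.2.2.2) ∧
  ∀ τ₁ τ₂, k.2.2.2.2.2.1 ⊆ Prof G k.2.2.1 τ₁ → k.2.2.2.2.2.2 ⊆ Prof G h.1 τ₂ →
    h.2.2.2 ⊆ Prof G h.1 (τ₁ ++ k.2.1 :: τ₂)

/-- The test. -/
noncomputable def chk (p : Ins N F T × Gue N F T) : Bool :=
  match p.1.1 with
  | .inl h => decide (∃ A, h.1 = .bot A) && (decide (G.bin p.2.1.1.1 p.2.1.1.2.1 p.2.1.1.2.2) &&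
      (decide (p.1.2.1 = p.2.2.1 ++ (fl p.2.2.2.2.1 ++ (fl p.2.2.2.2.2.1 ++ p.2.2.2.1))) &&
        small p.2.1.2.2.2.2.2.2 (twoD p.2.1 p.2.2)))
  | .inr h => decide (FC G h p.2.1) &&
      (decide (p.1.2.1 = p.2.2.1 ++ (fl p.2.2.2.2.1 ++ fl (lo p.2.2.2.2.2.2.1))) &&
      (decide (p.1.2.2.1 = fl (lo p.2.2.2.2.2.2.2.1) ++ (fl p.2.2.2.2.2.1 ++ p.2.2.2.1)) &&
      (decide (p.1.2.2.2 = lo2 p.2.2.2.2.2.2.2.2) &&
      (small p.2.1.2.2.2.2.2.1 (upD p.2.2) && small p.2.1.2.2.2.2.2.2 (loD p.2.2)))))

/-- The nonterminal of a leaf, if any. -/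
noncomputable def ntOf (l : Leaf N T) : N :=
  match l with
  | .bot A => A
  | _ => Classical.arbitrary N

/-- The subinstances. -/
noncomputable def subs (p : Ins N F T × Gue N F T) : List (Ins N F T) :=
  match p.1.1 with
  | .inl h => [(.inr (h.2.2, .inr (h.2.1, ntOf h.1), .inl p.2.1.1.1, p.2.1.2.2.2.2.2.2),
      (p.2.2.1, (p.2.2.2.1, big (twoD p.2.1 p.2.2))))]
  | .inr h => (.inr (p.2.1.2.2.1, .inl p.2.1.1.1, h.2.2.1, p.2.1.2.2.2.2.2.1),
      (top p.2.2.2.2.2.2.1, (top p.2.2.2.2.2.2.2.1, big (upD p.2.2)))) ::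
    (.inr (h.1, h.2.1, p.2.1.2.2.2.2.1, p.2.1.2.2.2.2.2.2),
      (p.2.2.1, (p.2.2.2.1, big (loD p.2.2)))) ::
    (.inl (.bot p.2.1.1.2.1, p.2.1.2.1, p.2.1.2.2.2.1),
      (top p.2.2.2.2.1 ++ (.hat p.2.1.1.1 :: top p.2.2.2.2.2.1), ([], []))) ::
    (p.2.2.2.2.2.2.1 ++ (p.2.2.2.2.2.2.2.1 ++ p.2.2.2.2.2.2.2.2.flatMap Prod.snd)).map
      fun P => (.inl (P.1, p.2.1.2.1, p.2.1.2.2.2.1), (top P.2, ([], [])))

end Pool.Agent.Lib.LinSpace.Idx
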