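import Pool.Agent.Lib.LinSpace.Idx.Algo

/-!
The tests and subinstances are computed in linear space.
-/

set_option autoImplicit false
set_option linter.unusedSimpArgs false
set_option linter.unusedSectionVars false

namespace Pool.Agent.Lib.LinSpace.Idx

open Classical

variable {N F T : Type} [Finite N] [Finite F] [Finite T] [Nonempty N] [Nonempty F]

/-- Everything. -/
abbrev All (N F T : Type) := Ins N F T × Gue N F T

theorem l_u1 : Lin (fun x : All N F T => x.1.2.1) := Lin.fst.comp (Lin.snd.comp Lin.fst)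
theorem l_u2 : Lin (fun x : All N F T => x.1.2.2.1) :=
  Lin.fst.comp (Lin.snd.comp (Lin.snd.comp Lin.fst))
theorem l_d : Lin (fun x : All N F T => x.1.2.2.2) :=
  Lin.snd.comp (Lin.snd.comp (Lin.snd.comp Lin.fst))
theorem l_y : Lin (fun x : All N F T => x.2.2) := Lin.snd.comp Lin.snd
theorem l_p1 : Lin (fun x : All N F T => x.2.2.1) := Lin.fst.comp l_y
theorem l_y2 : Lin (fun x : All N F T => x.2.2.2) := Lin.snd.comp l_y
theorem l_p2 : Lin (fun x : All N F T => x.2.2.2.1) := Lin.fst.comp l_y2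
theorem l_y3 : Lin (fun x : All N F T => x.2.2.2.2) := Lin.snd.comp l_y2
theorem l_q1 : Lin (fun x : All N F T => x.2.2.2.2.1) := Lin.fst.comp l_y3
theorem l_y4 : Lin (fun x : All N F T => x.2.2.2.2.2) := Lin.snd.comp l_y3
theorem l_q2 : Lin (fun x : All N F T => x.2.2.2.2.2.1) := Lin.fst.comp l_y4
theorem l_y5 : Lin (fun x : All N F T => x.2.2.2.2.2.2) := Lin.snd.comp l_y4
theorem l_T1 : Lin (fun x : All N F T => x.2.2.2.2.2.2.1) := Lin.fst.comp l_y5
theorem l_y6 : Lin (fun x : All N F T => x.2.2.2.2.2.2.2) := Lin.snd.comp l_y5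
theorem l_T2 : Lin (fun x : All N F T => x.2.2.2.2.2.2.2.1) := Lin.fst.comp l_y6
theorem l_S : Lin (fun x : All N F T => x.2.2.2.2.2.2.2.2) := Lin.snd.comp l_y6

theorem l_twoD (h : Gx N F T) : Lin (fun x : All N F T => twoD h x.2.2) := by
  have hB : Lin (fun _ : All N F T => (Leaf.bot h.1.2.1 : Leaf N T)) := Lin.const _
  have hC : Lin (fun _ : All N F T => (Leaf.bot h.1.2.2 : Leaf N T)) := Lin.const _
  exact (hB.pair (lin_fl l_q1)).cons ((hC.pair (lin_fl l_q2)).cons (Lin.const []))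

theorem l_upD : Lin (fun x : All N F T => upD x.2.2) :=
  Lin.map' l_S (Lin.fst.pair (lin_top Lin.snd))

theorem l_loD : Lin (fun x : All N F T => loD x.2.2) :=
  l_q1.append (l_q2.append ((lin_flatSnd l_T1).append ((lin_flatSnd l_T2).append
    (Lin.flatMap l_S (lin_flatSnd Lin.snd)))))

variable (G : Gram N F T)

theorem lin_chk : Lin (chk G : All N F T → Bool) := by
  refine (Lin.finCase (i := fun x : All N F T => ((x.1.1, x.2.1) : Hx N F T × Gx N F T))
    ((Lin.fst.comp Lin.fst).pair (Lin.fst.comp Lin.snd))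
    (f := fun h x => chk G ((h.1, x.1.2), (h.2, x.2.2))) fun h => ?_).of_eq fun x => rfl
  obtain ⟨h, k⟩ := h
  cases h with
  | inl h =>
    show Lin (fun x : All N F T => decide (∃ A, h.1 = .bot A) &&
      (decide (G.bin k.1.1 k.1.2.1 k.1.2.2) &&
      (decide (x.1.2.1 = x.2.2.1 ++ (fl x.2.2.2.2.1 ++ (fl x.2.2.2.2.2.1 ++ x.2.2.2.1))) &&
        small k.2.2.2.2.2.2 (twoD k x.2.2))))
    exact (Lin.const _).and ((Lin.const _).and ((Lin.eq l_u1
      (l_p1.append ((lin_fl l_q1).append ((lin_fl l_q2).append l_p2)))).and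
        (lin_small _ (l_twoD k))))
  | inr h =>
    show Lin (fun x : All N F T => decide (FC G h k) &&
      (decide (x.1.2.1 = x.2.2.1 ++ (fl x.2.2.2.2.1 ++ fl (lo x.2.2.2.2.2.2.1))) &&
      (decide (x.1.2.2.1 = fl (lo x.2.2.2.2.2.2.2.1) ++ (fl x.2.2.2.2.2.1 ++ x.2.2.2.1)) &&
      (decide (x.1.2.2.2 = lo2 x.2.2.2.2.2.2.2.2) &&
      (small k.2.2.2.2.2.1 (upD x.2.2) && small k.2.2.2.2.2.2 (loD x.2.2))))))
    exact (Lin.const _).and ((Lin.eq l_u1 (l_p1.append ((lin_fl l_q1).append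
      (lin_fl (lin_lo l_T1))))).and ((Lin.eq l_u2 ((lin_fl (lin_lo l_T2)).append
      ((lin_fl l_q2).append l_p2))).and ((Lin.eq l_d (lin_lo2 l_S)).and
        ((lin_small _ l_upD).and (lin_small _ l_loD)))))

theorem lin_subs : Lin (subs : All N F T → List (Ins N F T)) := by
  refine (Lin.finCase (i := fun x : All N F T => ((x.1.1, x.2.1) : Hx N F T × Gx N F T))
    ((Lin.fst.comp Lin.fst).pair (Lin.fst.comp Lin.snd))
    (f := fun h x => subs ((h.1, x.1.2), (h.2, x.2.2))) fun h => ?_).of_eq fun x => rfl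
  obtain ⟨h, k⟩ := h
  have hnil : Lin (fun _ : All N F T => (([], []) : W N T × List (Leaf N T × W N T))) :=
    Lin.const _
  have hc : ∀ v : Hx N F T, Lin (fun _ : All N F T => v) := fun v => Lin.const v
  cases h with
  | inl h =>
    have h1 : Lin (fun _ : All N F T => ([] : List (Ins N F T))) := Lin.const _
    exact ((hc (.inr (h.2.2, .inr (h.2.1, ntOf h.1), .inl k.1.1,
      k.2.2.2.2.2.2))).pair (l_p1.pair (l_p2.pair (lin_big (l_twoD k))))).cons h1
  | inr h =>
    have h3 : Lin (fun _ : All N F T => (Leaf.hat k.1.1 : Leaf N T)) := Lin.const _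
    have h4 : ∀ f : Leaf N T → Hx N F T, Lin f := fun f => Lin.of_finite f
    exact ((hc (.inr (k.2.2.1, .inl k.1.1, h.2.2.1,
      k.2.2.2.2.2.1))).pair ((lin_top l_T1).pair ((lin_top l_T2).pair (lin_big l_upD)))).cons
      (((hc (.inr (h.1, h.2.1, k.2.2.2.2.1,
      k.2.2.2.2.2.2))).pair (l_p1.pair (l_p2.pair (lin_big l_loD)))).cons
      (((hc (.inl (.bot k.1.2.1, k.2.1, k.2.2.2.1))).pair
        (((lin_top l_q1).append (h3.cons (lin_top l_q2))).pair hnil)).cons
      (Lin.map' (l_T1.append (l_T2.append (lin_flatSnd l_S)))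
        (((h4 fun l => .inl (l, k.2.1, k.2.2.2.1)).comp Lin.fst).pair
          ((lin_top Lin.snd).pair (Lin.const _))))))

end Pool.Agent.Lib.LinSpace.Idx
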