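import Mathlib

/-!
Grammars with stacks: derivations, cutting them at a level of the stack, and spines.
-/

set_option autoImplicit false
set_option linter.unusedSimpArgs false

namespace Pool.Agent.Lib.LinSpace.Idx

variable {N F T : Type}

/-- Leaves of derivations: a nonterminal whose stack has been emptied, a terminal letter, or a
nonterminal at which the derivation has been stopped on the lowest level. -/
inductive Leaf (N T : Type) : Type
  | bot (D : N) : Leaf N T
  | ter (a : T) : Leaf N T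
  | hat (X : N) : Leaf N T

/-- Grammars with stacks. -/
structure Gram (N F T : Type) where
  /-- `A → ε` -/
  eps : N → Prop
  /-- `A → a` -/
  term : N → T → Prop
  /-- `A → B C` -/
  bin : N → N → N → Prop
  /-- `A → B g` -/
  push : N → F → N → Prop
  /-- `A f → B` -/
  pop : N → F → N → Prop

/-- Words of leaves. -/
abbrev W (N T : Type) := List (Leaf N T)

/-- `R G E τ A u`: from the nonterminal `A` with the stack `τ` one can derive the word `u`,
where nonterminals with empty stack in `E` may be erased. -/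
inductive R (G : Gram N F T) (E : Set N) : List F → N → W N T → Prop
  | bot (A : N) : R G E [] A [.bot A]
  | era {A : N} : A ∈ E → R G E [] A []
  | eps {f : F} {τ : List F} {A : N} : G.eps A → R G E (f :: τ) A []
  | term {f : F} {τ : List F} {A : N} {a : T} : G.term A a → R G E (f :: τ) A [.ter a]
  | bin {f : F} {τ : List F} {A B C : N} {u v : W N T} : G.bin A B C → R G E (f :: τ) B u →
      R G E (f :: τ) C v → R G E (f :: τ) A (u ++ v)
  | push {f : F} {τ : List F} {A B : N} {g : F} {u : W N T} : G.push A g B →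
      R G E (g :: f :: τ) B u → R G E (f :: τ) A u
  | pop {f : F} {τ : List F} {A B : N} {u : W N T} : G.pop A f B → R G E τ B u →
      R G E (f :: τ) A u
  | hat (f : F) (A : N) : R G E [f] A [.hat A]

/-- The nonterminals which can be erased with the stack `τ`. -/
def Er (G : Gram N F T) (E : Set N) (τ : List F) : Set N := {D | R G E τ D []}

/-- Derivations from leaves. -/
def Dm (G : Gram N F T) (E : Set N) (τ : List F) : Leaf N T → W N T → Prop
  | .bot D, u => R G E τ D u
  | .ter a, u => u = [.ter a]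
  | .hat X, u => τ = [] ∧ u = [.hat X]

/-- The upper word of a list of expansions. -/
abbrev top {γ : Type} (t : List (Leaf N T × γ)) : W N T := t.map Prod.fst

/-- The lower word of a list of expansions. -/
abbrev fl (t : List (Leaf N T × W N T)) : W N T := t.flatMap Prod.snd

variable {G : Gram N F T} {E E' : Set N}

theorem R.mono (hE : E ⊆ E') {τ : List F} {A : N} {u : W N T} (h : R G E τ A u) :
    R G E' τ A u := by
  induction h with
  | bot A => exact .bot A
  | era h => exact .era (hE h)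
  | eps h => exact .eps h
  | term h => exact .term h
  | bin h _ _ ih1 ih2 => exact .bin h ih1 ih2
  | push h _ ih => exact .push h ih
  | pop h _ ih => exact .pop h ih
  | hat f A => exact .hat f A

theorem Dm.mono (hE : E ⊆ E') {τ : List F} {l : Leaf N T} {u : W N T} (h : Dm G E τ l u) :
    Dm G E' τ l u := by
  cases l with
  | bot D => exact R.mono hE h
  | ter a => exact h
  | hat X => exact h

theorem R_nil_iff {A : N} {u : W N T} : R G E [] A u ↔ u = [.bot A] ∨ (A ∈ E ∧ u = []) := by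
  constructor
  · intro h
    cases h with
    | bot => exact Or.inl rfl
    | era h => exact Or.inr ⟨h, rfl⟩
  · rintro (rfl | ⟨h, rfl⟩)
    · exact .bot A
    · exact .era h

theorem Er_nil : Er G E [] = E := by
  ext D
  simp [Er, R_nil_iff]

theorem Dm_nil {l : Leaf N T} {u : W N T} (h : Dm G E [] l u) (hu : u ≠ []) : u = [l] := by
  cases l with
  | bot D =>
    rcases R_nil_iff.1 h with h | h
    · exact h
    · exact absurd h.2 hu
  | ter a => exact h
  | hat X => exact h.2

theorem Dm_self (l : Leaf N T) : Dm G E [] l [l] := by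
  cases l with
  | bot D => exact .bot D
  | ter a => rfl
  | hat X => exact ⟨rfl, rfl⟩

/-! ### Composition -/

theorem R.comp {τ₁ τ₂ : List F} {A : N} {y : W N T} (h : R G E' τ₁ A y)
    (hE : E' ⊆ Er G E τ₂) : ∀ t : List (Leaf N T × W N T), top t = y →
      (∀ p ∈ t, Dm G E τ₂ p.1 p.2) → R G E (τ₁ ++ τ₂) A (fl t) := by
  induction h with
  | bot A =>
    intro t ht hD
    obtain ⟨p, rfl, hp⟩ := List.map_eq_singleton_iff.1 ht
    have := hD p (by simp)
    rw [hp] at this
    have h3 : R G E τ₂ A p.2 := this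
    simpa [fl] using h3
  | era h =>
    intro t ht hD
    rw [List.map_eq_nil_iff.1 ht]
    exact hE h
  | eps h =>
    intro t ht hD
    rw [List.map_eq_nil_iff.1 ht]
    exact .eps h
  | term h =>
    intro t ht hD
    obtain ⟨p, rfl, hp⟩ := List.map_eq_singleton_iff.1 ht
    have h2 := hD p (by simp)
    rw [hp] at h2
    have h3 : p.2 = [.ter _] := h2
    simpa [fl, h3] using R.term h
  | bin h _ _ ih1 ih2 =>
    intro t ht hD
    obtain ⟨t1, t2, rfl, h1, h2⟩ := List.map_eq_append_iff.1 ht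
    rw [fl, List.flatMap_append]
    exact .bin h (ih1 t1 h1 fun p hp => hD p (by simp [hp]))
      (ih2 t2 h2 fun p hp => hD p (by simp [hp]))
  | push h _ ih => exact fun t ht hD => .push h (ih t ht hD)
  | pop h _ ih => exact fun t ht hD => .pop h (ih t ht hD)
  | hat f A =>
    intro t ht hD
    obtain ⟨p, rfl, hp⟩ := List.map_eq_singleton_iff.1 ht
    have h2 := hD p (by simp)
    rw [hp] at h2
    obtain ⟨h3, h4⟩ := h2
    subst h3
    simpa [fl, h4] using R.hat f A

theorem Dm.comp {τ₁ τ₂ : List F} {l : Leaf N T} {t : List (Leaf N T × W N T)}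
    (h : Dm G E' τ₁ l (top t)) (hE : E' ⊆ Er G E τ₂) (hD : ∀ p ∈ t, Dm G E τ₂ p.1 p.2) :
    Dm G E (τ₁ ++ τ₂) l (fl t) := by
  cases l with
  | bot D => exact R.comp h hE t rfl hD
  | ter a =>
    obtain ⟨p, rfl, hp⟩ := List.map_eq_singleton_iff.1 h
    have h2 := hD p (by simp)
    rw [hp] at h2
    have h3 : p.2 = [.ter _] := h2
    show fl [p] = [.ter a]
    simp [fl, h3]
  | hat X =>
    obtain ⟨h0, h⟩ := h
    obtain ⟨p, rfl, hp⟩ := List.map_eq_singleton_iff.1 h
    have h2 := hD p (by simp)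
    rw [hp] at h2
    obtain ⟨h3, h4⟩ := h2
    subst h3
    subst h0
    exact ⟨rfl, by simp [fl, h4]⟩

/-! ### Cutting -/

theorem R.cut_nil {τ : List F} {A : N} {u : W N T} (h : R G E τ A u) :
    ∃ t : List (Leaf N T × W N T), R G (Er G E τ) [] A (top t) ∧ fl t = u ∧
      ∀ p ∈ t, Dm G E τ p.1 p.2 ∧ p.2 ≠ [] := by
  by_cases hu : u = []
  · subst hu
    exact ⟨[], .era h, rfl, by simp⟩
  · refine ⟨[(.bot A, u)], .bot A, by simp [fl], ?_⟩
    intro p hp
    rw [List.mem_singleton] at hp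
    subst hp
    exact ⟨h, hu⟩

theorem R.cut {τ : List F} {A : N} {u : W N T} (h : R G E τ A u) :
    ∀ τ₁ τ₂, τ = τ₁ ++ τ₂ → ∃ t : List (Leaf N T × W N T),
      R G (Er G E τ₂) τ₁ A (top t) ∧ fl t = u ∧ ∀ p ∈ t, Dm G E τ₂ p.1 p.2 ∧ p.2 ≠ [] := by
  induction h with
  | bot A =>
    intro τ₁ τ₂ h
    obtain ⟨rfl, rfl⟩ := List.append_eq_nil_iff.1 h.symm
    exact R.cut_nil (.bot A)
  | era h0 =>
    intro τ₁ τ₂ h
    obtain ⟨rfl, rfl⟩ := List.append_eq_nil_iff.1 h.symm
    exact R.cut_nil (.era h0)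
  | eps h0 =>
    intro τ₁ τ₂ h
    cases τ₁ with
    | nil => rw [List.nil_append] at h; subst h; exact R.cut_nil (.eps h0)
    | cons f' τ₁ => exact ⟨[], .eps h0, rfl, by simp⟩
  | @term f τ A a h0 =>
    intro τ₁ τ₂ h
    cases τ₁ with
    | nil => rw [List.nil_append] at h; subst h; exact R.cut_nil (.term h0)
    | cons f' τ₁ =>
      refine ⟨[(.ter a, [.ter a])], .term h0, by simp [fl], ?_⟩
      intro p hp
      rw [List.mem_singleton] at hp
      subst hp
      exact ⟨rfl, by simp⟩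
  | bin h0 h1 h2 ih1 ih2 =>
    intro τ₁ τ₂ h
    cases τ₁ with
    | nil => rw [List.nil_append] at h; subst h; exact R.cut_nil (.bin h0 h1 h2)
    | cons f' τ₁ =>
      obtain ⟨t1, a1, b1, c1⟩ := ih1 _ _ h
      obtain ⟨t2, a2, b2, c2⟩ := ih2 _ _ h
      refine ⟨t1 ++ t2, ?_, ?_, ?_⟩
      · rw [top, List.map_append]
        exact .bin h0 a1 a2
      · rw [fl, List.flatMap_append]
        exact congrArg₂ _ b1 b2
      · intro p hp
        rcases List.mem_append.1 hp with hp | hp
        · exact c1 p hp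
        · exact c2 p hp
  | @push f τ A B g u h0 h1 ih1 =>
    intro τ₁ τ₂ h
    cases τ₁ with
    | nil => rw [List.nil_append] at h; subst h; exact R.cut_nil (.push h0 h1)
    | cons f' τ₁ =>
      obtain ⟨t1, a1, b1, c1⟩ := ih1 (g :: f' :: τ₁) τ₂ (by rw [h]; rfl)
      exact ⟨t1, .push h0 a1, b1, c1⟩
  | @pop f τ A B u h0 h1 ih1 =>
    intro τ₁ τ₂ h
    cases τ₁ with
    | nil => rw [List.nil_append] at h; subst h; exact R.cut_nil (.pop h0 h1)
    | cons f' τ₁ =>
      rw [List.cons_append, List.cons.injEq] at h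
      obtain ⟨rfl, h⟩ := h
      obtain ⟨t1, a1, b1, c1⟩ := ih1 τ₁ τ₂ h
      exact ⟨t1, .pop h0 a1, b1, c1⟩
  | hat f A =>
    intro τ₁ τ₂ h
    cases τ₁ with
    | nil => rw [List.nil_append] at h; subst h; exact R.cut_nil (.hat f A)
    | cons f' τ₁ =>
      rw [List.cons_append, List.cons.injEq] at h
      obtain ⟨rfl, h⟩ := h
      obtain ⟨rfl, rfl⟩ := List.append_eq_nil_iff.1 h.symm
      refine ⟨[(.hat A, [.hat A])], .hat f A, by simp [fl], ?_⟩
      intro p hp
      rw [List.mem_singleton] at hp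
      subst hp
      exact ⟨⟨rfl, rfl⟩, by simp⟩

theorem Dm.cut {τ₁ τ₂ : List F} {l : Leaf N T} {u : W N T} (h : Dm G E (τ₁ ++ τ₂) l u) :
    ∃ t : List (Leaf N T × W N T), Dm G (Er G E τ₂) τ₁ l (top t) ∧ fl t = u ∧
      ∀ p ∈ t, Dm G E τ₂ p.1 p.2 ∧ p.2 ≠ [] := by
  cases l with
  | bot D => exact R.cut h _ _ rfl
  | ter a =>
    have h' : u = [.ter a] := h
    subst h'
    refine ⟨[(.ter a, [.ter a])], rfl, by simp [fl], ?_⟩
    intro p hp
    rw [List.mem_singleton] at hp
    subst hp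
    exact ⟨rfl, by simp⟩
  | hat X =>
    obtain ⟨h1, rfl⟩ := h
    obtain ⟨rfl, rfl⟩ := List.append_eq_nil_iff.1 h1
    refine ⟨[(.hat X, [.hat X])], ⟨rfl, rfl⟩, by simp [fl], ?_⟩
    intro p hp
    rw [List.mem_singleton] at hp
    subst hp
    exact ⟨⟨rfl, rfl⟩, by simp⟩

/-- Three level words. -/
abbrev T3 (N T : Type) := List (Leaf N T × List (Leaf N T × W N T))

/-- Forget the lowest level of a three level word, or the middle one. -/
abbrev lo (q : T3 N T) : List (Leaf N T × W N T) := q.map fun p => (p.1, fl p.2)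

theorem Dm.refine {τ₁ τ₂ : List F} (q : List (Leaf N T × W N T))
    (h : ∀ p ∈ q, Dm G E (τ₁ ++ τ₂) p.1 p.2) : ∃ Q : T3 N T, lo Q = q ∧
      ∀ p ∈ Q, Dm G (Er G E τ₂) τ₁ p.1 (top p.2) ∧ ∀ r ∈ p.2, Dm G E τ₂ r.1 r.2 ∧ r.2 ≠ [] := by
  induction q with
  | nil => exact ⟨[], rfl, by simp⟩
  | cons p q ih =>
    obtain ⟨Q, h1, h2⟩ := ih fun p' hp' => h p' (List.mem_cons_of_mem _ hp')
    obtain ⟨t, a, b, c⟩ := Dm.cut (h p (List.mem_cons_self ..))
    refine ⟨(p.1, t) :: Q, ?_, ?_⟩
    · show (p.1, fl t) :: lo Q = p :: q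
      rw [h1, b]
    · intro p' hp'
      rcases List.mem_cons.1 hp' with hp' | hp'
      · subst hp'; exact ⟨a, c⟩
      · exact h2 p' hp'

theorem Er_append {τ₁ τ₂ : List F} : Er G E (τ₁ ++ τ₂) = Er G (Er G E τ₂) τ₁ := by
  ext D
  constructor
  · intro h
    obtain ⟨t, a, b, c⟩ := R.cut (show R G E (τ₁ ++ τ₂) D [] from h) _ _ rfl
    have : t = [] := by
      cases t with
      | nil => rfl
      | cons p t =>
        exfalso
        rw [fl, List.flatMap_cons, List.append_eq_nil_iff] at b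
        exact (c p (List.mem_cons_self ..)).2 b.1
    subst this
    exact a
  · intro h
    exact R.comp (show R G (Er G E τ₂) τ₁ D [] from h) (le_refl _) [] rfl (by simp)

/-! ### Plugging -/

theorem R.plug {τ : List F} {A : N} {u : W N T} (h : R G E τ A u) {g : F} {X : N} {v : W N T}
    (hv : R G E [g] X v) : ∀ τ' q₁ q₂, τ = τ' ++ [g] → u = q₁ ++ .hat X :: q₂ →
      R G E τ A (q₁ ++ v ++ q₂) := by
  induction h with
  | bot A => intro τ' q₁ q₂ h; simp at h
  | era _ => intro τ' q₁ q₂ h; simp at h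
  | eps _ => intro τ' q₁ q₂ _ h; simp at h
  | term _ =>
    intro τ' q₁ q₂ _ h
    exfalso
    cases q₁ with
    | nil => simp at h
    | cons a q₁ => simp at h
  | bin h0 h1 h2 ih1 ih2 =>
    intro τ' q₁ q₂ hτ h
    rcases List.append_eq_append_iff.1 h with ⟨a, h3, h4⟩ | ⟨c, h3, h4⟩
    · have := ih2 τ' a q₂ hτ h4
      have h5 := R.bin h0 h1 this
      rw [h3]
      simpa [List.append_assoc] using h5
    · cases c with
      | nil =>
        rw [List.append_nil] at h3
        rw [List.nil_append] at h4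
        have := ih2 τ' [] q₂ hτ (by rw [List.nil_append]; exact h4.symm)
        have h5 := R.bin h0 h1 this
        rw [← h3]
        simpa [List.append_assoc] using h5
      | cons c0 c =>
        rw [List.cons_append, List.cons.injEq] at h4
        obtain ⟨rfl, h4⟩ := h4
        have := ih1 τ' q₁ c hτ h3
        have h5 := R.bin h0 this h2
        rw [h4]
        simpa [List.append_assoc] using h5
  | @push f τ A B g' u h0 h1 ih1 =>
    intro τ' q₁ q₂ hτ h
    exact .push h0 (ih1 (g' :: τ') q₁ q₂ (by rw [hτ]; rfl) h)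
  | @pop f τ A B u h0 h1 ih1 =>
    intro τ' q₁ q₂ hτ h
    cases τ' with
    | nil =>
      exfalso
      rw [List.nil_append, List.cons.injEq] at hτ
      obtain ⟨rfl, rfl⟩ := hτ
      rcases R_nil_iff.1 h1 with h2 | ⟨_, h2⟩
      · rw [h2] at h
        cases q₁ with
        | nil => simp at h
        | cons a q₁ => simp at h
      · rw [h2] at h
        simp at h
    | cons f' τ' =>
      rw [List.cons_append, List.cons.injEq] at hτ
      obtain ⟨rfl, hτ⟩ := hτ
      exact .pop h0 (ih1 τ' q₁ q₂ hτ h)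
  | hat f A =>
    intro τ' q₁ q₂ hτ h
    cases q₁ with
    | nil =>
      simp only [List.nil_append, List.cons.injEq, Leaf.hat.injEq] at h
      obtain ⟨rfl, rfl⟩ := h
      cases τ' with
      | nil =>
        rw [List.nil_append, List.cons.injEq] at hτ
        obtain ⟨rfl, _⟩ := hτ
        simpa using hv
      | cons f' τ' => simp at hτ
    | cons a q₁ => simp at h

theorem R.plug' {A X : N} {g : F} {q₁ q₂ v : W N T} (h : R G E [g] A (q₁ ++ .hat X :: q₂))
    (hv : R G E [g] X v) : R G E [g] A (q₁ ++ v ++ q₂) := R.plug h hv [] q₁ q₂ rfl rfl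

/-! ### Spines -/

/-- Ends of spines: a nonterminal, or a nonterminal with a flag which has just been pushed. -/
abbrev Sx (N F : Type) := N ⊕ (F × N)

/-- The possible pushes. -/
def pu (G : Gram N F T) : Sx N F → F → N → Prop
  | .inl Y, g, A => G.push Y g A
  | .inr p, g, A => p = (g, A)

/-- `Sp G E τ s e u₁ u₂`: there is a path in a derivation leading from `s` (on level zero) to
`e` with the stack `τ`, whose side branches derive `u₁` on the left and `u₂` on the right. -/
inductive Sp (G : Gram N F T) (E : Set N) : List F → Sx N F → Sx N F → W N T → W N T → Prop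
  | nil (s : Sx N F) : Sp G E [] s s [] []
  | cons {τ : List F} {s s' : Sx N F} {g : F} {A X : N} {p₁ p₂ : W N T}
      {q₁ q₂ : List (Leaf N T × W N T)} : Sp G E τ s s' p₁ p₂ → pu G s' g A →
      R G (Er G E τ) [g] A (top q₁ ++ .hat X :: top q₂) →
      (∀ p ∈ q₁, Dm G E τ p.1 p.2) → (∀ p ∈ q₂, Dm G E τ p.1 p.2) →
      Sp G E (g :: τ) s (.inl X) (p₁ ++ fl q₁) (fl q₂ ++ p₂)

theorem regroup (q : List (Leaf N T × W N T)) : ∀ t : List (Leaf N T × W N T), top t = fl q →
    ∃ Q : T3 N T, (Q.map fun p => (p.1, top p.2)) = q ∧ Q.flatMap Prod.snd = t := by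
  induction q with
  | nil =>
    intro t ht
    have : t = [] := List.map_eq_nil_iff.1 ht
    exact ⟨[], rfl, this.symm⟩
  | cons p q ih =>
    intro t ht
    rw [fl, List.flatMap_cons] at ht
    obtain ⟨t1, t2, rfl, h1, h2⟩ := List.map_eq_append_iff.1 ht
    obtain ⟨Q, h3, h4⟩ := ih t2 h2
    refine ⟨(p.1, t1) :: Q, ?_, ?_⟩
    · rw [List.map_cons, h3]
      simp only [List.cons.injEq, and_true]
      exact Prod.ext rfl h1
    · rw [List.flatMap_cons, h4]

theorem fl_lo (Q : T3 N T) : fl (lo Q) = fl (Q.flatMap Prod.snd) := by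
  induction Q with
  | nil => rfl
  | cons p Q ih =>
    rw [List.flatMap_cons, lo, List.map_cons]
    simp only [fl, List.flatMap_cons, List.flatMap_append] at ih ⊢
    rw [← ih]

theorem top_lo (Q : T3 N T) : top (lo Q) = top Q := by
  simp [top, lo, Function.comp_def]

theorem fl_map_top (Q : T3 N T) : fl (Q.map fun p => (p.1, top p.2)) =
    top (Q.flatMap Prod.snd) := by
  induction Q with
  | nil => rfl
  | cons p Q ih =>
    simp only [fl, top, List.map_cons, List.flatMap_cons, List.map_append] at ih ⊢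
    rw [ih]

theorem top_map_top (Q : T3 N T) : top (Q.map fun p => (p.1, top p.2)) = top Q := by
  simp [top, Function.comp_def]

theorem Sp.comp {τ₁ τ₂ : List F} {s s' s'' : Sx N F} {y₁ y₂ p₁ p₂ : W N T}
    (h : Sp G E' τ₁ s' s'' y₁ y₂) (hE : E' ⊆ Er G E τ₂) (h' : Sp G E τ₂ s s' p₁ p₂) :
    ∀ t₁ t₂ : List (Leaf N T × W N T), top t₁ = y₁ → top t₂ = y₂ →
      (∀ p ∈ t₁, Dm G E τ₂ p.1 p.2) → (∀ p ∈ t₂, Dm G E τ₂ p.1 p.2) →
      Sp G E (τ₁ ++ τ₂) s s'' (p₁ ++ fl t₁) (fl t₂ ++ p₂) := by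
  induction h with
  | nil s' =>
    intro t₁ t₂ h1 h2 _ _
    rw [List.map_eq_nil_iff.1 h1, List.map_eq_nil_iff.1 h2]
    simpa [fl] using h'
  | @cons τ s₀ s' g A X r₁ r₂ q₁ q₂ hs hp hR hq₁ hq₂ ih =>
    intro t₁ t₂ h1 h2 hD1 hD2
    obtain ⟨t1a, t1b, rfl, a1, a2⟩ := List.map_eq_append_iff.1 h1
    obtain ⟨t2b, t2a, rfl, b1, b2⟩ := List.map_eq_append_iff.1 h2
    obtain ⟨Q1, c1, c2⟩ := regroup q₁ t1b a2
    obtain ⟨Q2, d1, d2⟩ := regroup q₂ t2b b1
    have e1 := ih h' t1a t2a a1 b2 (fun p hp => hD1 p (by simp [hp]))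
      (fun p hp => hD2 p (by simp [hp]))
    have hEr : Er G E' τ ⊆ Er G E (τ ++ τ₂) := by
      intro D hD
      rw [Er_append]
      exact R.mono hE hD
    have key : ∀ (Q : T3 N T) (q : List (Leaf N T × W N T)) (t : List (Leaf N T × W N T)),
        (Q.map fun p => (p.1, top p.2)) = q → Q.flatMap Prod.snd = t →
        (∀ p ∈ q, Dm G E' τ p.1 p.2) → (∀ p ∈ t, Dm G E τ₂ p.1 p.2) →
        ∀ p ∈ lo Q, Dm G E (τ ++ τ₂) p.1 p.2 := by
      intro Q q t x1 x2 x3 x4 p hp
      obtain ⟨P, hP, rfl⟩ := List.mem_map.1 hp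
      refine Dm.comp (E' := E') (t := P.2) ?_ hE ?_
      · exact x3 (P.1, top P.2) (by rw [← x1]; exact List.mem_map.2 ⟨P, hP, rfl⟩)
      · intro r hr
        exact x4 r (by rw [← x2]; exact List.mem_flatMap.2 ⟨P, hP, hr⟩)
    have f1 : fl (lo Q1) = fl t1b := by rw [fl_lo, c2]
    have f2 : fl (lo Q2) = fl t2b := by rw [fl_lo, d2]
    have g1 : top (lo Q1) = top q₁ := by rw [top_lo, ← top_map_top, c1]
    have g2 : top (lo Q2) = top q₂ := by rw [top_lo, ← top_map_top, d1]
    have := Sp.cons (q₁ := lo Q1) (q₂ := lo Q2) (X := X) e1 hp (by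
      rw [g1, g2]
      exact R.mono hEr hR)
      (key Q1 q₁ t1b c1 c2 hq₁ fun p hp => hD1 p (by simp [hp]))
      (key Q2 q₂ t2b d1 d2 hq₂ fun p hp => hD2 p (by simp [hp]))
    rw [f1, f2] at this
    simpa [fl, List.flatMap_append, List.append_assoc] using this

/-- A spine with one level. -/
theorem Sp.single {g : F} {s : Sx N F} {A X : N} {q₁ q₂ : W N T} (hp : pu G s g A)
    (h : R G E [g] A (q₁ ++ .hat X :: q₂)) : Sp G E [g] s (.inl X) q₁ q₂ := by
  have h1 : ∀ q : W N T, top (q.map fun l => (l, [l])) = q := fun q => by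
    simp [top, Function.comp_def]
  have h2 : ∀ q : W N T, fl (q.map fun l => (l, [l])) = q := fun q => by
    induction q with
    | nil => rfl
    | cons a q ih => simp only [fl, List.map_cons, List.flatMap_cons] at ih ⊢; rw [ih]; rfl
  have h3 : ∀ q : W N T, ∀ p ∈ q.map fun l => (l, [l]), Dm G E [] p.1 p.2 := by
    intro q p hp
    obtain ⟨l, _, rfl⟩ := List.mem_map.1 hp
    exact Dm_self l
  have := Sp.cons (q₁ := q₁.map fun l => (l, [l])) (q₂ := q₂.map fun l => (l, [l]))
    (Sp.nil (G := G) (E := E) s) hp (by rw [h1, h1, Er_nil]; exact h) (h3 _) (h3 _)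
  rw [h2, h2] at this
  simpa using this

end Pool.Agent.Lib.LinSpace.Idx
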