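import Pool.Agent.Lib.LinSpace.Idx.Decide

/-!
Completeness of the recursive algorithm and the resulting theorem.
-/

set_option autoImplicit false
set_option linter.unusedSimpArgs false
set_option linter.unusedSectionVars false

namespace Pool.Agent.Lib.LinSpace.Idx

open Classical

variable {N F T : Type} [Finite N] [Finite F] [Finite T] [Nonempty N] [Nonempty F]

variable {G : Gram N F T}

theorem fl_length_eq (t : List (Leaf N T × W N T)) (h : ∀ p ∈ t, p.2 ≠ []) :
    (fl t).length = t.length + sm t := by
  induction t with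
  | nil => rfl
  | cons p t ih =>
    rw [fl, List.flatMap_cons, List.length_append, List.length_cons, sm_cons]
    have h1 := ih fun p' hp' => h p' (List.mem_cons_of_mem _ hp')
    have h2 := List.length_pos_of_ne_nil (h p (List.mem_cons_self ..))
    rw [fl] at h1
    omega

/-- Completeness for single level instances. -/
theorem complete_inl {c : ℕ} (hc : ∀ l : Leaf N T, sz l ≤ c) (hk : ∀ k : Gx N F T, sz k ≤ c)
    (h : Leaf N T × F × Set N) (u₁ : W N T) (hu : 2 ≤ u₁.length)
    (hS : Dm G h.2.2 [h.2.1] h.1 u₁) :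
    ∃ y : Gue N F T, sz y ≤ (40 * c + 200) * sz u₁ + (40 * c + 200) ∧
      chk G (((.inl h, (u₁, ([], []))) : Ins N F T), y) = true ∧
      ∀ z ∈ subs (((.inl h, (u₁, ([], []))) : Ins N F T), y), good z = true ∧
        10 * (ms z).length ≤ 9 * (4 * (u₁.length - 1)) ∧ Sat G z := by
  obtain ⟨l, f, E⟩ := h
  simp only at hS
  cases l with
  | ter a =>
    have : u₁ = [.ter a] := hS
    rw [this] at hu; simp at hu
  | hat X =>
    have : u₁ = [.hat X] := hS.2
    rw [this] at hu; simp at hu
  | bot A =>
    have hR : R G E [f] A u₁ := hS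
    obtain ⟨ρ, X, B, C, v₁, vB, vC, v₂, a1, a2, a3, a4, a5, a6, a7, a8⟩ :=
      R.central (t := u₁.length / 2) hR (by omega) [] [] (by simp) (Sp.start f A) (by omega)
    rw [List.append_nil, List.nil_append] at a5
    have hlen := congrArg List.length a5
    simp only [List.length_append] at hlen
    let k : Gx N F T := ((X, B, C), f, E, E, .inl X, ∅, Prof G E ρ)
    let y : Gue N F T := (k, (v₁, (v₂, ([(.bot B, vB)], ([(.bot C, vC)], ([], ([], [])))))))
    have hfl : ∀ (l : Leaf N T) (v : W N T), fl [(l, v)] = v := fun l v => by simp [fl]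
    have htwo : twoD k y.2 = [(.bot B, vB), (.bot C, vC)] := by
      show [((.bot B : Leaf N T), fl [(.bot B, vB)]), (.bot C, fl [(.bot C, vC)])] = _
      rw [hfl, hfl]
    have hDm : ∀ d ∈ ([(.bot B, vB), (.bot C, vC)] : List (Leaf N T × W N T)),
        Dm G E ρ d.1 d.2 := by
      intro d hd
      simp only [List.mem_cons, List.not_mem_nil, or_false] at hd
      rcases hd with rfl | rfl
      · exact a3
      · exact a4
    refine ⟨y, ?_, ?_, ?_⟩
    · have e1 := sz_W hc v₁
      have e2 := sz_W hc v₂
      have e3 := sz_W hc vB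
      have e4 := sz_W hc vC
      have e5 := hk k
      have e6 := hc (.bot B)
      have e7 := hc (.bot C)
      have e8 := length_le_sz u₁
      have e9 : sz y = sz k + (sz v₁ + (sz v₂ + (sz [((.bot B : Leaf N T), vB)] +
          (sz [((.bot C : Leaf N T), vC)] + (sz ([] : T3 N T) + (sz ([] : T3 N T) +
          sz ([] : List (Leaf N T × T3 N T)) + 1) + 1) + 1) + 1) + 1) + 1) + 1 := by
        show sz (k, _) = _
        rw [sz_pair, sz_pair, sz_pair, sz_pair, sz_pair, sz_pair, sz_pair]
      rw [e9, sz_cons, sz_cons, sz_pair, sz_pair, sz_nil, sz_nil, sz_nil]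
      have e10 : (c + 1) * v₁.length + (c + 1) * v₂.length + (c + 1) * vB.length +
          (c + 1) * vC.length = (c + 1) * u₁.length := by rw [hlen]; ring
      have e11 : (c + 1) * u₁.length ≤ (c + 1) * sz u₁ := Nat.mul_le_mul_left _ (by omega)
      have e12 : (c + 1) * sz u₁ ≤ (40 * c + 200) * sz u₁ := Nat.mul_le_mul_right _ (by omega)
      omega
    · show (decide (∃ A', (Leaf.bot A : Leaf N T) = .bot A') && (decide (G.bin X B C) &&
        (decide (u₁ = v₁ ++ (fl [(.bot B, vB)] ++ (fl [(.bot C, vC)] ++ v₂))) &&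
          small (Prof G E ρ) (twoD k y.2)))) = true
      rw [htwo, hfl, hfl, small_of hDm]
      simp [a2, a5]
    · intro z hz
      have hz' : z = ((.inr (E, .inr (f, A), .inl X, Prof G E ρ),
          (v₁, (v₂, big (twoD k y.2)))) : Ins N F T) := List.mem_singleton.1 hz
      rw [htwo] at hz'
      subst hz'
      refine ⟨?_, ?_, ⟨ρ, a1, ?_, le_refl _⟩⟩
      · rw [good_inr]
        intro d hd
        exact (mem_big.1 hd).2
      · rw [ms_inr]
        simp only
        rw [sm_big, sm_cons, sm_cons, sm_nil]
        simp only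
        have hM : 2 * (mx ((v₁ ++ v₂) :: (big [((.bot B : Leaf N T), vB), (.bot C, vC)]).map
            fun d => d.2.tail)).length ≤ u₁.length - 1 := by
          have : (mx ((v₁ ++ v₂) :: (big [((.bot B : Leaf N T), vB), (.bot C, vC)]).map
              fun d => d.2.tail)).length ≤ (u₁.length - 1) / 2 := by
            apply mx_length_le
            intro b hb
            rcases List.mem_cons.1 hb with rfl | hb
            · rw [List.length_append]; omega
            · obtain ⟨d, hd, rfl⟩ := List.mem_map.1 hb
              have hd' := (mem_big.1 hd).1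
              simp only [List.mem_cons, List.not_mem_nil, or_false] at hd'
              rw [List.length_tail]
              rcases hd' with rfl | rfl
              · simp only; omega
              · simp only; omega
          omega
        omega
      · intro d hd
        exact hDm d (mem_big.1 hd).1

/-- Completeness for multilevel instances. -/
theorem complete_inr {c : ℕ} (hc : ∀ l : Leaf N T, sz l ≤ c) (hk : ∀ k : Gx N F T, sz k ≤ c)
    (h : Set N × Sx N F × Sx N F × Set (Pr N T)) (u₁ u₂ : W N T)
    (D : List (Leaf N T × W N T)) (hD : ∀ d ∈ D, 2 ≤ d.2.length)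
    (hB : 1 ≤ u₁.length + u₂.length + sm D)
    (hS : Sat G ((.inr h, (u₁, (u₂, D))) : Ins N F T)) :
    ∃ y : Gue N F T, sz y ≤ (40 * c + 200) * (u₁.length + u₂.length + (fl D).length) +
        (40 * c + 200) ∧
      chk G (((.inr h, (u₁, (u₂, D))) : Ins N F T), y) = true ∧
      ∀ z ∈ subs (((.inr h, (u₁, (u₂, D))) : Ins N F T), y), good z = true ∧
        10 * (ms z).length ≤ 9 * (ms ((.inr h, (u₁, (u₂, D))) : Ins N F T)).length ∧
        Sat G z := by
  obtain ⟨E, s, e, P⟩ := h
  obtain ⟨ρ, b1, b2, b3⟩ := hS
  simp only at b1 b2 b3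
  obtain ⟨⟨τ₁, g, τ₂, Y, s₂, A, p₁, p₂, q₁, q₂, T₁, T₂, S, hρ, push, upper, lower, middle, hu₁,
    hu₂, hdems, hq₁, hq₂, hT₁, hT₂, hSS, small', large⟩⟩ := critical (B := u₁.length +
      u₂.length + sm D) rfl hB b1 (fun d hd => ⟨b2 d hd, fun h0 => by
        have := hD d hd
        rw [h0] at this
        simp at this⟩)
  set E₂ := Er G E τ₂ with hE₂
  set E₁ := Er G E (g :: τ₂) with hE₁
  have hE12 : E₁ = Er G E₂ [g] := Er_append (τ₁ := [g])
  let k : Gx N F T := ((Y, A, A), g, E₁, E₂, s₂, Prof G E₁ τ₁, Prof G E τ₂)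
  let y : Gue N F T := (k, (p₁, (p₂, (q₁, (q₂, (T₁, (T₂, S)))))))
  -- the words
  have hne1 : ∀ P ∈ T₁, P.2 ≠ [] ∧ ∀ p ∈ P.2, p.2 ≠ [] := fun P hP =>
    ⟨(hT₁ P hP).2.1, fun p hp => ((hT₁ P hP).2.2 p hp).2⟩
  have hne2 : ∀ P ∈ T₂, P.2 ≠ [] ∧ ∀ p ∈ P.2, p.2 ≠ [] := fun P hP =>
    ⟨(hT₂ P hP).2.1, fun p hp => ((hT₂ P hP).2.2 p hp).2⟩
  have hS2 : ∀ d ∈ S, 2 ≤ (fl (lo d.2)).length := by
    intro d hd
    refine hD (d.1, fl (lo d.2)) ?_
    rw [hdems]
    exact List.mem_map.2 ⟨d, hd, rfl⟩
  have hneS : ∀ d ∈ S, d.2 ≠ [] ∧ ∀ P ∈ d.2, P.2 ≠ [] ∧ ∀ p ∈ P.2, p.2 ≠ [] := by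
    intro d hd
    refine ⟨fun h0 => ?_, fun P hP => ⟨((hSS d hd).2 P hP).2.1,
      fun p hp => (((hSS d hd).2 P hP).2.2 p hp).2⟩⟩
    have := hS2 d hd
    rw [h0] at this
    simp [fl, lo] at this
  -- lengths of groups
  have hflP : ∀ (P : Leaf N T × List (Leaf N T × W N T)), (∀ p ∈ P.2, p.2 ≠ []) →
      P.2.length ≤ (fl P.2).length := fun P hP => fl_length_ge P.2 hP
  have hloge : ∀ Q : T3 N T, (∀ P ∈ Q, P.2 ≠ [] ∧ ∀ p ∈ P.2, p.2 ≠ []) →
      Q.length ≤ (fl (lo Q)).length := by
    intro Q hQ
    have := fl_length_ge (lo Q) (by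
      intro p hp
      obtain ⟨P, hP, rfl⟩ := List.mem_map.1 hp
      obtain ⟨h9, h10⟩ := hQ P hP
      have h11 := fl_length_ge P.2 h10
      have h12 := List.length_pos_of_ne_nil h9
      intro h13
      have h14 : fl P.2 = [] := h13
      rw [h14] at h11
      exact h9 (by simpa using h11))
    simpa [lo] using this
  have hmemlo : ∀ (Q : T3 N T) (P : Leaf N T × List (Leaf N T × W N T)), P ∈ Q →
      (fl P.2).length ≤ (fl (lo Q)).length := by
    intro Q P hP
    exact length_le_fl (t := lo Q) (p := (P.1, fl P.2)) (List.mem_map.2 ⟨P, hP, rfl⟩)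
  have hfe : ∀ Q : T3 N T, (∀ P ∈ Q, ∀ p ∈ P.2, p.2 ≠ []) →
      (fl (lo Q)).length = (Q.flatMap Prod.snd).length + sm (Q.flatMap Prod.snd) := by
    intro Q hQ
    rw [fl_lo]
    exact fl_length_eq _ (by
      intro p hp
      obtain ⟨P, hP, hr⟩ := List.mem_flatMap.1 hp
      exact hQ P hP p hr)
  have hq1e := fl_length_eq q₁ fun p hp => (hq₁ p hp).2
  have hq2e := fl_length_eq q₂ fun p hp => (hq₂ p hp).2
  have hT1e := hfe T₁ fun P hP => (hne1 P hP).2
  have hT2e := hfe T₂ fun P hP => (hne2 P hP).2
  have hu1l : u₁.length = p₁.length + (fl q₁).length + (fl (lo T₁)).length := by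
    rw [hu₁, List.length_append, List.length_append]
  have hu2l : u₂.length = (fl (lo T₂)).length + (fl q₂).length + p₂.length := by
    rw [hu₂, List.length_append, List.length_append]
  have hSe : sm D = sm (S.map fun d => (d.1, d.2.flatMap Prod.snd)) +
      sm (S.flatMap fun d => d.2.flatMap Prod.snd) := by
    rw [hdems]
    clear hdems large small'
    induction S with
    | nil => rfl
    | cons d S ih =>
      have ih' := ih (fun d' hd' => hSS d' (List.mem_cons_of_mem _ hd'))
        (fun d' hd' => hS2 d' (List.mem_cons_of_mem _ hd'))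
        (fun d' hd' => hneS d' (List.mem_cons_of_mem _ hd'))
      have e1 := hfe d.2 fun P hP => ((hneS d (List.mem_cons_self ..)).2 P hP).2
      have e2 := hS2 d (List.mem_cons_self ..)
      have e3 : 1 ≤ (d.2.flatMap Prod.snd).length := by
        rcases Nat.eq_zero_or_pos (d.2.flatMap Prod.snd).length with h0 | h0
        · have h1 := List.eq_nil_of_length_eq_zero h0
          rw [h1] at e1
          rw [e1] at e2
          simp [sm] at e2
        · exact h0
      have e0 : lo2 (d :: S) = (d.1, fl (lo d.2)) :: lo2 S := rfl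
      rw [e0, sm_cons, ih', List.map_cons, sm_cons, List.flatMap_cons, sm_append]
      simp only
      omega
  -- the measure of the instance
  have hms := ms_inr (N := N) (F := F) (T := T) (E, s, e, P) (u₁, (u₂, D))
  simp only at hms
  set M := (mx ((u₁ ++ u₂) :: D.map fun d => d.2.tail)).length with hM
  have hM1 : u₁.length + u₂.length ≤ M := by
    have := length_le_mx (l := (u₁ ++ u₂) :: D.map fun d => d.2.tail) (b := u₁ ++ u₂)
      (List.mem_cons_self ..)
    rw [List.length_append] at this
    exact this
  have hM2 : ∀ d ∈ S, (fl (lo d.2)).length - 1 ≤ M := by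
    intro d hd
    have := length_le_mx (l := (u₁ ++ u₂) :: D.map fun d => d.2.tail)
      (b := (fl (lo d.2)).tail) (List.mem_cons_of_mem _ (List.mem_map.2
        ⟨(d.1, fl (lo d.2)), by rw [hdems]; exact List.mem_map.2 ⟨d, hd, rfl⟩, rfl⟩))
    rw [List.length_tail] at this
    exact this
  have hMB : M ≤ u₁.length + u₂.length + sm D := by
    apply mx_length_le
    intro b hb
    rcases List.mem_cons.1 hb with rfl | hb
    · rw [List.length_append]; omega
    · obtain ⟨d, hd, rfl⟩ := List.mem_map.1 hb
      rw [List.length_tail]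
      have : d.2.length - 1 ≤ sm D := by
        have := List.single_le_sum (l := D.map fun d => d.2.length - 1) (by simp) _
          (List.mem_map.2 ⟨d, hd, rfl⟩)
        exact this
      omega
  have hupD : ∀ d ∈ upD y.2, Dm G E₁ τ₁ d.1 d.2 := by
    intro d hd
    obtain ⟨d', hd', rfl⟩ := List.mem_map.1 hd
    exact (hSS d' hd').1
  have hloD : ∀ d ∈ loD y.2, Dm G E τ₂ d.1 d.2 ∧ d.2.length - 1 ≤ M := by
    intro d hd
    simp only [loD, List.mem_append] at hd
    rcases hd with hd | hd | hd | hd | hd
    · refine ⟨(hq₁ d hd).1, ?_⟩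
      have := length_le_fl (t := q₁) hd
      omega
    · refine ⟨(hq₂ d hd).1, ?_⟩
      have := length_le_fl (t := q₂) hd
      omega
    · obtain ⟨P', hP', hr⟩ := List.mem_flatMap.1 hd
      refine ⟨((hT₁ P' hP').2.2 d hr).1, ?_⟩
      have h1 := length_le_fl hr
      have h2 := hmemlo T₁ P' hP'
      omega
    · obtain ⟨P', hP', hr⟩ := List.mem_flatMap.1 hd
      refine ⟨((hT₂ P' hP').2.2 d hr).1, ?_⟩
      have h1 := length_le_fl hr
      have h2 := hmemlo T₂ P' hP'
      omega
    · obtain ⟨d', hd', hr'⟩ := List.mem_flatMap.1 hd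
      obtain ⟨P', hP', hr⟩ := List.mem_flatMap.1 hr'
      refine ⟨(((hSS d' hd').2 P' hP').2.2 d hr).1, ?_⟩
      have h1 := length_le_fl hr
      have h2 := hmemlo d'.2 P' hP'
      have h3 := hM2 d' hd'
      omega
  refine ⟨y, ?_, ?_, ?_⟩
  · -- size
    have e1 := sz_W hc p₁
    have e2 := sz_W hc p₂
    have e3 := sz_Lw hc q₁ fun p hp => (hq₁ p hp).2
    have e4 := sz_Lw hc q₂ fun p hp => (hq₂ p hp).2
    have e5 := sz_T3 hc T₁ hne1
    have e6 := sz_T3 hc T₂ hne2
    have e7 := sz_L3 hc S hneS
    have e8 := hk k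
    rw [← hdems] at e7
    have e9 : sz y = sz k + (sz p₁ + (sz p₂ + (sz q₁ + (sz q₂ + (sz T₁ + (sz T₂ + sz S + 1) +
        1) + 1) + 1) + 1) + 1) + 1 := by
      show sz (k, _) = _
      rw [sz_pair, sz_pair, sz_pair, sz_pair, sz_pair, sz_pair, sz_pair]
    have f1 : (c + 1) * p₁.length ≤ (40 * c + 200) * p₁.length :=
      Nat.mul_le_mul_right _ (by omega)
    have f2 : (c + 1) * p₂.length ≤ (40 * c + 200) * p₂.length :=
      Nat.mul_le_mul_right _ (by omega)
    have f3 : (2 * c + 4) * (fl q₁).length ≤ (40 * c + 200) * (fl q₁).length :=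
      Nat.mul_le_mul_right _ (by omega)
    have f4 : (2 * c + 4) * (fl q₂).length ≤ (40 * c + 200) * (fl q₂).length :=
      Nat.mul_le_mul_right _ (by omega)
    have f5 : (3 * c + 7) * (fl (lo T₁)).length ≤ (40 * c + 200) * (fl (lo T₁)).length :=
      Nat.mul_le_mul_right _ (by omega)
    have f6 : (3 * c + 7) * (fl (lo T₂)).length ≤ (40 * c + 200) * (fl (lo T₂)).length :=
      Nat.mul_le_mul_right _ (by omega)
    have f7 : (4 * c + 10) * (fl D).length ≤ (40 * c + 200) * (fl D).length :=
      Nat.mul_le_mul_right _ (by omega)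
    have f8 : (40 * c + 200) * (u₁.length + u₂.length + (fl D).length) =
        (40 * c + 200) * p₁.length + (40 * c + 200) * (fl q₁).length +
        (40 * c + 200) * (fl (lo T₁)).length + (40 * c + 200) * (fl (lo T₂)).length +
        (40 * c + 200) * (fl q₂).length + (40 * c + 200) * p₂.length +
        (40 * c + 200) * (fl D).length := by rw [hu1l, hu2l]; ring
    rw [e9]
    omega
  · -- the test
    have hFC : FC G (E, s, e, P) k := by
      refine ⟨push, ?_, ?_, ?_⟩
      · show E₁ ⊆ Er G E₂ [g]
        rw [hE12]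
      · intro D' hD'
        exact hD'
      · intro τ₁' τ₂' h1 h2
        show P ⊆ Prof G E (τ₁' ++ g :: τ₂')
        have h3 : Prof G E (τ₁ ++ g :: τ₂) ⊆ Prof G E (τ₁' ++ g :: τ₂) := Prof_upper h1
        have h4 : Prof G E ((τ₁' ++ [g]) ++ τ₂) ⊆ Prof G E ((τ₁' ++ [g]) ++ τ₂') :=
          Prof_lower h2
        rw [List.append_assoc, List.append_assoc] at h4
        rw [hρ] at b3
        exact (b3.trans h3).trans h4
    show (decide (FC G (E, s, e, P) k) &&
      (decide (u₁ = p₁ ++ (fl q₁ ++ fl (lo T₁))) &&
      (decide (u₂ = fl (lo T₂) ++ (fl q₂ ++ p₂)) &&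
      (decide (D = lo2 S) &&
      (small (Prof G E₁ τ₁) (upD y.2) && small (Prof G E τ₂) (loD y.2)))))) = true
    rw [small_of hupD, small_of fun d hd => (hloD d hd).1]
    simp only [Bool.and_eq_true, decide_eq_true_eq, and_true]
    refine ⟨hFC, ?_, ?_, hdems⟩
    · rw [hu₁, List.append_assoc]
    · rw [hu₂, List.append_assoc]
  · -- the subinstances
    intro z hz
    rw [hms]
    have hz' : z = ((.inr (E₁, .inl Y, e, Prof G E₁ τ₁),
          (top T₁, (top T₂, big (upD y.2)))) : Ins N F T) ∨
        z = ((.inr (E, s, s₂, Prof G E τ₂), (p₁, (p₂, big (loD y.2)))) : Ins N F T) ∨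
        z = ((.inl (.bot A, g, E₂), (top q₁ ++ (.hat Y :: top q₂), ([], []))) : Ins N F T) ∨
        z ∈ (T₁ ++ (T₂ ++ S.flatMap Prod.snd)).map fun P =>
          ((.inl (P.1, g, E₂), (top P.2, ([], []))) : Ins N F T) := by
      simpa [subs, y, k] using hz
    rcases hz' with rfl | rfl | rfl | hz'
    · refine ⟨?_, ?_, ⟨τ₁, upper, ?_, le_refl _⟩⟩
      · rw [good_inr]
        intro d hd
        exact (mem_big.1 hd).2
      · rw [ms_inr]
        simp only
        rw [sm_big]
        have h1 : sm (upD y.2) = sm S := by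
          simp only [upD, sm, List.map_map]
          congr 1
          apply List.map_congr_left
          intro d _
          simp [top]
        have h2 : (mx ((top T₁ ++ top T₂) :: (big (upD y.2)).map fun d => d.2.tail)).length
            ≤ M := by
          apply mx_length_le
          intro b hb
          rcases List.mem_cons.1 hb with rfl | hb
          · rw [List.length_append, top, top, List.length_map, List.length_map]
            have h3 := hloge T₁ hne1
            have h4 := hloge T₂ hne2
            omega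
          · obtain ⟨d, hd, rfl⟩ := List.mem_map.1 hb
            obtain ⟨d', hd', rfl⟩ := List.mem_map.1 (mem_big.1 hd).1
            rw [List.length_tail, top, List.length_map]
            have h3 := hloge d'.2 (hneS d' hd').2
            have h4 := hM2 d' hd'
            omega
        have h5 : (top T₁).length = T₁.length := by simp
        have h6 : (top T₂).length = T₂.length := by simp
        rw [h1, h5, h6]
        omega
      · intro d hd
        exact hupD d (mem_big.1 hd).1
    · refine ⟨?_, ?_, ⟨τ₂, lower, ?_, le_refl _⟩⟩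
      · rw [good_inr]
        intro d hd
        exact (mem_big.1 hd).2
      · rw [ms_inr]
        simp only
        rw [sm_big]
        have h1 : sm (loD y.2) = sm q₁ + (sm q₂ + (sm (T₁.flatMap Prod.snd) +
            (sm (T₂.flatMap Prod.snd) + sm (S.flatMap fun d => d.2.flatMap Prod.snd)))) := by
          simp only [loD, sm_append]
          rfl
        have h2 : (mx ((p₁ ++ p₂) :: (big (loD y.2)).map fun d => d.2.tail)).length
            ≤ M := by
          apply mx_length_le
          intro b hb
          rcases List.mem_cons.1 hb with rfl | hb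
          · rw [List.length_append]
            omega
          · obtain ⟨d, hd, rfl⟩ := List.mem_map.1 hb
            rw [List.length_tail]
            exact (hloD d (mem_big.1 hd).1).2
        rw [h1]
        omega
      · intro d hd
        exact (hloD d (mem_big.1 hd).1).1
    · refine ⟨by rw [good_inl]; exact ⟨rfl, rfl⟩, ?_, middle⟩
      rw [ms_inl]
      simp only [List.length_append, List.length_cons, List.length_map]
      omega
    · obtain ⟨P', hP', rfl⟩ := List.mem_map.1 hz'
      have key : Dm G E₂ [g] P'.1 (top P'.2) ∧ P'.2.length - 1 ≤ M := by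
        simp only [List.mem_append] at hP'
        rcases hP' with hP' | hP' | hP'
        · refine ⟨(hT₁ P' hP').1, ?_⟩
          have h1 := hflP P' (hne1 P' hP').2
          have h2 := hmemlo T₁ P' hP'
          omega
        · refine ⟨(hT₂ P' hP').1, ?_⟩
          have h1 := hflP P' (hne2 P' hP').2
          have h2 := hmemlo T₂ P' hP'
          omega
        · obtain ⟨d, hd, hP2⟩ := List.mem_flatMap.1 hP'
          refine ⟨((hSS d hd).2 P' hP2).1, ?_⟩
          have h1 := hflP P' ((hneS d hd).2 P' hP2).2
          have h2 := hmemlo d.2 P' hP2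
          have h3 := hM2 d hd
          omega
      refine ⟨by rw [good_inl]; exact ⟨rfl, rfl⟩, ?_, key.1⟩
      rw [ms_inl]
      simp only [List.length_map]
      omega

/-- Derivability in a grammar with stacks is decidable in linear space. -/
theorem lin_R [Enc T] (G : Gram N F T) (E : Set N) (f : F) (S : N) :
    Lin (fun w : List T => decide (R G E [f] S (w.map .ter))) := by
  obtain ⟨c, hc, hh, hk⟩ := exists_c (N := N) (F := F) (T := T)
  have hw : Lin (fun w : List T => (w.map .ter : W N T)) :=
    Lin.map' Lin.id (Lin.of_finite _)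
  have hx0 : Lin (fun w : List T => (((.inl (.bot S, f, E) : Hx N F T),
      ((w.map .ter : W N T), (([] : W N T), ([] : List (Leaf N T × W N T))))) : Ins N F T)) :=
    (Lin.const _).pair (hw.pair (Lin.const _))
  refine lin_shrink (α := Ins N F T) (β := Gue N F T) (C := 40 * c + 200) (F := Sat G)
    (good := good) (base := base) (bval := bval G) (m := ms) (chk := chk G) (subs := subs)
    lin_good lin_base (lin_bval G) lin_ms (lin_chk G) lin_subs ?_ ?_ ?_ ?_ ?_ hx0 ?_ ?_
  · intro x hx
    refine (sz_good hc hh x hx).trans (Nat.mul_le_mul_right _ (by omega))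
  · exact base_correct
  · intro x _ hb
    rw [base] at hb
    exact List.length_pos_of_ne_nil (by simpa using hb)
  · exact fun x _ _ y hy hs => sound x y hy hs
  · intro x hg hb hS
    obtain ⟨h, u₁, u₂, D⟩ := x
    cases h with
    | inl h =>
      rw [good_inl] at hg
      simp only at hg
      obtain ⟨rfl, rfl⟩ := hg
      have hu : 2 ≤ u₁.length := by
        have h1 : 0 < (ms ((.inl h, (u₁, ([], []))) : Ins N F T)).length :=
          List.length_pos_of_ne_nil (by simpa [base] using hb)
        rw [ms_inl] at h1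
        simp only at h1
        omega
      obtain ⟨y, h1, h2, h3⟩ := complete_inl hc hk h u₁ hu hS
      refine ⟨y, h1.trans ?_, h2, ?_⟩
      · have e : ∀ v : Hx N F T, sz u₁ ≤ sz ((v, (u₁, ([], []))) : Ins N F T) := fun v => by
          rw [sz_pair, sz_pair]; omega
        have := Nat.mul_le_mul_left (40 * c + 200) (e (.inl h))
        exact Nat.add_le_add_right this _
      · intro z hz
        obtain ⟨a, b, d⟩ := h3 z hz
        refine ⟨a, ?_, d⟩
        rw [ms_inl]
        exact b
    | inr h =>
      rw [good_inr] at hg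
      simp only at hg
      have hB : 1 ≤ u₁.length + u₂.length + sm D := by
        have h1 : 0 < (ms ((.inr h, (u₁, (u₂, D))) : Ins N F T)).length :=
          List.length_pos_of_ne_nil (by simpa [base] using hb)
        rw [ms_inr] at h1
        simp only at h1
        have hMB : (mx ((u₁ ++ u₂) :: D.map fun d => d.2.tail)).length ≤
            u₁.length + u₂.length + sm D := by
          apply mx_length_le
          intro b hb
          rcases List.mem_cons.1 hb with rfl | hb
          · rw [List.length_append]; omega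
          · obtain ⟨d, hd, rfl⟩ := List.mem_map.1 hb
            rw [List.length_tail]
            have : d.2.length - 1 ≤ sm D := by
              have := List.single_le_sum (l := D.map fun d => d.2.length - 1) (by simp) _
                (List.mem_map.2 ⟨d, hd, rfl⟩)
              exact this
            omega
        omega
      obtain ⟨y, h1, h2, h3⟩ := complete_inr hc hk h u₁ u₂ D hg hB hS
      refine ⟨y, h1.trans ?_, h2, h3⟩
      have e : ∀ v : Hx N F T, u₁.length + u₂.length + (fl D).length ≤
          sz ((v, (u₁, (u₂, D))) : Ins N F T) := fun v => by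
        rw [sz_pair, sz_pair, sz_pair]
        have e1 := length_le_sz u₁
        have e2 := length_le_sz u₂
        have e3 := fl_length_le_sz D
        omega
      have := Nat.mul_le_mul_left (40 * c + 200) (e (.inr h))
      exact Nat.add_le_add_right this _
  · intro w
    rw [good_inl]
    exact ⟨rfl, rfl⟩
  · intro w
    rw [decide_eq_true_eq]
    rfl

end Pool.Agent.Lib.LinSpace.Idx
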