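import Pool.Agent.Lib.LinSpace.Idx.AlgoLin

/-!
Correctness of the recursive algorithm.
-/

set_option autoImplicit false
set_option linter.unusedSimpArgs false
set_option linter.unusedSectionVars false

namespace Pool.Agent.Lib.LinSpace.Idx

open Classical

variable {N F T : Type} [Finite N] [Finite F] [Finite T] [Nonempty N] [Nonempty F]

variable {G : Gram N F T}

theorem small_big {E : Set N} {ρ : List F} {P : Set (Pr N T)} {l : List (Leaf N T × W N T)}
    (h1 : ∀ d ∈ big l, Dm G E ρ d.1 d.2) (h2 : small P l = true) (h3 : P ⊆ Prof G E ρ) :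
    ∀ d ∈ l, Dm G E ρ d.1 d.2 := by
  intro d hd
  have h4 := (List.all_eq_true.1 h2) d hd
  by_cases h5 : 2 ≤ d.2.length
  · exact h1 d (List.mem_filter.2 ⟨hd, by simpa using h5⟩)
  · have h6 : ((d.1, d.2.head?) : Pr N T) ∈ P := by
      simpa [h5] using h4
    have h7 : Dm G E ρ d.1 (d.2.head?).toList := h3 h6
    rwa [toList_head? (by omega)] at h7

theorem small_of {E : Set N} {ρ : List F} {l : List (Leaf N T × W N T)}
    (h : ∀ d ∈ l, Dm G E ρ d.1 d.2) : small (Prof G E ρ) l = true := by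
  refine List.all_eq_true.2 fun d hd => ?_
  by_cases h5 : 2 ≤ d.2.length
  · simp [h5]
  · have : ((d.1, d.2.head?) : Pr N T) ∈ Prof G E ρ := by
      show Dm G E ρ d.1 (d.2.head?).toList
      rw [toList_head? (by omega)]
      exact h d hd
    simp [this]

theorem mem_big {l : List (Leaf N T × W N T)} {d : Leaf N T × W N T} :
    d ∈ big l ↔ d ∈ l ∧ 2 ≤ d.2.length := by
  simp [big, List.mem_filter]

theorem sm_big (l : List (Leaf N T × W N T)) : sm (big l) = sm l := by
  induction l with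
  | nil => rfl
  | cons d l ih =>
    rw [big, List.filter_cons, sm_cons]
    rw [big] at ih
    split
    · rw [sm_cons, ih]
    · rename_i h
      rw [ih]
      have : ¬ 2 ≤ d.2.length := by simpa using h
      omega

/-! ### Soundness -/

theorem sound (x : Ins N F T) (y : Gue N F T) (hc : chk G (x, y) = true)
    (hs : ∀ z ∈ subs (x, y), Sat G z) : Sat G x := by
  obtain ⟨h, u₁, u₂, D⟩ := x
  obtain ⟨k, p₁, p₂, q₁, q₂, T₁, T₂, S⟩ := y
  cases h with
  | inl h =>
    simp only [chk, Bool.and_eq_true, decide_eq_true_eq] at hc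
    obtain ⟨⟨A, hA⟩, hb, hu, hsm⟩ := hc
    obtain ⟨ρ, a1, a2, a3⟩ := hs _ (List.mem_cons_self ..)
    simp only at a1 a2 a3
    have a4 := small_big a2 hsm a3
    have hB : R G h.2.2 ρ k.1.2.1 (fl q₁) := a4 (.bot k.1.2.1, fl q₁) (by simp [twoD])
    have hC : R G h.2.2 ρ k.1.2.2 (fl q₂) := a4 (.bot k.1.2.2, fl q₂) (by simp [twoD])
    cases ρ with
    | nil =>
      have := a1.inv_nil.1
      simp at this
    | cons f τ =>
      obtain ⟨f', A', b1, b2⟩ := a1.close _ _ rfl (by simp) (R.bin hb hB hC)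
      have b3 : (h.2.1, ntOf h.1) = (f', A') := b1
      rw [Prod.mk.injEq] at b3
      obtain ⟨rfl, b4⟩ := b3
      rw [hA] at b4
      have b5 : A = A' := b4
      subst b5
      show Dm G h.2.2 [h.2.1] h.1 u₁
      rw [hA, hu]
      show R G h.2.2 [h.2.1] A (p₁ ++ (fl q₁ ++ (fl q₂ ++ p₂)))
      simpa [List.append_assoc] using b2
  | inr h =>
    simp only [chk, Bool.and_eq_true, decide_eq_true_eq] at hc
    obtain ⟨⟨f1, f2, f3, f4⟩, hu1, hu2, hd, hsu, hsl⟩ := hc
    obtain ⟨τ₁, a1, a2, a3⟩ := hs _ (List.mem_cons_self ..)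
    obtain ⟨τ₂, b1, b2, b3⟩ := hs _ (List.mem_cons_of_mem _ (List.mem_cons_self ..))
    have c1 := hs _ (List.mem_cons_of_mem _ (List.mem_cons_of_mem _ (List.mem_cons_self ..)))
    have c2 := fun z hz => hs z (List.mem_cons_of_mem _ (List.mem_cons_of_mem _
      (List.mem_cons_of_mem _ hz)))
    simp only at a1 a2 a3 b1 b2 b3 c2
    have c1' : R G k.2.2.2.1 [k.2.1] k.1.2.1 (top q₁ ++ .hat k.1.1 :: top q₂) := c1
    have a4 := small_big a2 hsu a3
    have b4 := small_big b2 hsl b3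
    have hE2 : k.2.2.2.1 ⊆ Er G h.1 τ₂ := fun D hD => b3 (f3 D hD)
    have hE1 : k.2.2.1 ⊆ Er G h.1 (k.2.1 :: τ₂) := by
      rw [show k.2.1 :: τ₂ = [k.2.1] ++ τ₂ from rfl, Er_append]
      intro D hD
      exact R.mono hE2 (f2 hD)
    have hP : ∀ P ∈ T₁ ++ (T₂ ++ S.flatMap Prod.snd),
        Dm G k.2.2.2.1 [k.2.1] P.1 (top P.2) := by
      intro P hP
      exact c2 _ (List.mem_map.2 ⟨P, hP, rfl⟩)
    have hlo : ∀ p ∈ loD ((p₁, p₂, q₁, q₂, T₁, T₂, S) : Ly N T), Dm G h.1 τ₂ p.1 p.2 := b4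
    have hlift : ∀ P ∈ T₁ ++ (T₂ ++ S.flatMap Prod.snd),
        (∀ p ∈ P.2, Dm G h.1 τ₂ p.1 p.2) → Dm G h.1 (k.2.1 :: τ₂) P.1 (fl P.2) := by
      intro P hP' hp
      exact Dm.comp (τ₁ := [k.2.1]) (hP P hP') hE2 hp
    have hq1 : ∀ p ∈ q₁, Dm G h.1 τ₂ p.1 p.2 := fun p hp => hlo p (by simp [loD, hp])
    have hq2 : ∀ p ∈ q₂, Dm G h.1 τ₂ p.1 p.2 := fun p hp => hlo p (by simp [loD, hp])
    have hT1 : ∀ P ∈ T₁, ∀ p ∈ P.2, Dm G h.1 τ₂ p.1 p.2 := by
      intro P hP' p hp
      refine hlo p ?_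
      simp only [loD, List.mem_append]
      exact Or.inr (Or.inr (Or.inl (List.mem_flatMap.2 ⟨P, hP', hp⟩)))
    have hT2 : ∀ P ∈ T₂, ∀ p ∈ P.2, Dm G h.1 τ₂ p.1 p.2 := by
      intro P hP' p hp
      refine hlo p ?_
      simp only [loD, List.mem_append]
      exact Or.inr (Or.inr (Or.inr (Or.inl (List.mem_flatMap.2 ⟨P, hP', hp⟩))))
    have hS : ∀ d ∈ S, ∀ P ∈ d.2, ∀ p ∈ P.2, Dm G h.1 τ₂ p.1 p.2 := by
      intro d hd' P hP' p hp
      refine hlo p ?_
      simp only [loD, List.mem_append]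
      exact Or.inr (Or.inr (Or.inr (Or.inr (List.mem_flatMap.2 ⟨d, hd',
        List.mem_flatMap.2 ⟨P, hP', hp⟩⟩))))
    have hlow := Sp.cons (q₁ := q₁) (q₂ := q₂) (X := k.1.1) b1 f1 (R.mono hE2 c1') hq1 hq2
    have hall := Sp.comp a1 hE1 hlow (lo T₁) (lo T₂) (top_lo T₁) (top_lo T₂) (by
      intro p hp
      obtain ⟨P, hP', rfl⟩ := List.mem_map.1 hp
      exact hlift P (by simp [hP']) (hT1 P hP')) (by
      intro p hp
      obtain ⟨P, hP', rfl⟩ := List.mem_map.1 hp
      exact hlift P (by simp [hP']) (hT2 P hP'))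
    refine ⟨τ₁ ++ k.2.1 :: τ₂, ?_, ?_, f4 τ₁ τ₂ a3 b3⟩
    · show Sp G h.1 (τ₁ ++ k.2.1 :: τ₂) h.2.1 h.2.2.1 u₁ u₂
      rw [hu1, hu2]
      simpa [List.append_assoc] using hall
    · intro d hd'
      have hd2 : d ∈ lo2 S := by rw [← hd]; exact hd'
      obtain ⟨d', hdS, rfl⟩ := List.mem_map.1 hd2
      refine Dm.comp (E' := k.2.2.1) (τ₁ := τ₁) (t := lo d'.2) ?_ hE1 ?_
      · rw [top_lo]
        exact a4 (d'.1, top d'.2) (List.mem_map.2 ⟨d', hdS, rfl⟩)
      · intro p hp
        obtain ⟨P, hP', rfl⟩ := List.mem_map.1 hp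
        refine hlift P ?_ (hS d' hdS P hP')
        simp only [List.mem_append]
        exact Or.inr (Or.inr (List.mem_flatMap.2 ⟨d', hdS, hP'⟩))

/-! ### Base instances -/

theorem base_correct (x : Ins N F T) (hg : good x = true) (hb : base x = true) :
    bval G x = true ↔ Sat G x := by
  obtain ⟨h, u₁, u₂, D⟩ := x
  have hb' : (ms ((h, u₁, u₂, D) : Ins N F T)).length = 0 := by
    rw [base, List.isEmpty_iff] at hb
    rw [hb]; rfl
  cases h with
  | inl h =>
    rw [good_inl] at hg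
    simp only at hg
    obtain ⟨rfl, rfl⟩ := hg
    rw [ms_inl] at hb'
    simp only at hb'
    have e : (u₁.head?).toList = u₁ := toList_head? (by omega)
    rw [bval]
    simp only
    rw [e]
    exact decide_eq_true_iff
  | inr h =>
    rw [good_inr] at hg
    rw [ms_inr] at hb'
    simp only at hb' hg
    have h1 : u₁ = [] := List.eq_nil_of_length_eq_zero (by omega)
    have h2 : u₂ = [] := List.eq_nil_of_length_eq_zero (by omega)
    have h3 : D = [] := by
      cases D with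
      | nil => rfl
      | cons d D =>
        exfalso
        have := hg d (List.mem_cons_self ..)
        rw [sm_cons] at hb'
        omega
    subst h1 h2 h3
    simp only [bval, decide_eq_true_eq]
    rfl

/-! ### Sizes -/

theorem exists_c : ∃ c, (∀ l : Leaf N T, sz l ≤ c) ∧ (∀ h : Hx N F T, sz h ≤ c) ∧
    ∀ k : Gx N F T, sz k ≤ c := by
  obtain ⟨a, ha⟩ := (Set.finite_range fun l : Leaf N T => sz l).bddAbove
  obtain ⟨b, hb⟩ := (Set.finite_range fun l : Hx N F T => sz l).bddAbove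
  obtain ⟨c, hc⟩ := (Set.finite_range fun l : Gx N F T => sz l).bddAbove
  exact ⟨a + b + c, fun l => (ha ⟨l, rfl⟩).trans (by omega),
    fun l => (hb ⟨l, rfl⟩).trans (by omega), fun l => (hc ⟨l, rfl⟩).trans (by omega)⟩

section Sizes

variable {c : ℕ} (hc : ∀ l : Leaf N T, sz l ≤ c)

include hc

theorem sz_W (u : W N T) : sz u ≤ (c + 1) * u.length + 1 := by
  induction u with
  | nil => simp [sz_nil]
  | cons a u ih =>
    rw [sz_cons, List.length_cons, Nat.mul_add]
    have := hc a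
    omega

theorem sz_Lw (q : List (Leaf N T × W N T)) (h : ∀ p ∈ q, p.2 ≠ []) :
    sz q ≤ (2 * c + 4) * (fl q).length + 1 := by
  induction q with
  | nil => simp [sz_nil]
  | cons p q ih =>
    obtain ⟨l, u⟩ := p
    have h1 := ih fun p' hp' => h p' (List.mem_cons_of_mem _ hp')
    have h2 := List.length_pos_of_ne_nil (h _ (List.mem_cons_self ..))
    have h3 := sz_W hc u
    have h4 := hc l
    have e : (fl ((l, u) :: q)).length = u.length + (fl q).length := by
      simp [fl]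
    rw [sz_cons, sz_pair, e, Nat.mul_add]
    simp only at h2
    have h5 : c + 3 ≤ (c + 3) * u.length := Nat.le_mul_of_pos_right _ h2
    have h6 : (2 * c + 4) * u.length = (c + 1) * u.length + (c + 3) * u.length := by ring
    omega

theorem sz_T3 (Q : T3 N T) (h : ∀ P ∈ Q, P.2 ≠ [] ∧ ∀ p ∈ P.2, p.2 ≠ []) :
    sz Q ≤ (3 * c + 7) * (fl (lo Q)).length + 1 := by
  induction Q with
  | nil => simp [sz_nil]
  | cons P Q ih =>
    obtain ⟨l, t⟩ := P
    have h1 := ih fun p' hp' => h p' (List.mem_cons_of_mem _ hp')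
    obtain ⟨h2, h2'⟩ := h _ (List.mem_cons_self ..)
    have h3 := sz_Lw hc t h2'
    have h4 := hc l
    have h7 := fl_length_ge t h2'
    have h8 := List.length_pos_of_ne_nil h2
    have e : (fl (lo ((l, t) :: Q))).length = (fl t).length + (fl (lo Q)).length := by
      simp [fl, lo]
    rw [sz_cons, sz_pair, e, Nat.mul_add]
    simp only at h8
    have h5 : c + 3 ≤ (c + 3) * (fl t).length := Nat.le_mul_of_pos_right _ (by omega)
    have h6 : (3 * c + 7) * (fl t).length = (2 * c + 4) * (fl t).length +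
      (c + 3) * (fl t).length := by ring
    omega

theorem sz_L3 (S : List (Leaf N T × T3 N T))
    (h : ∀ d ∈ S, d.2 ≠ [] ∧ ∀ P ∈ d.2, P.2 ≠ [] ∧ ∀ p ∈ P.2, p.2 ≠ []) :
    sz S ≤ (4 * c + 10) * (fl (lo2 S)).length + 1 := by
  induction S with
  | nil => simp [sz_nil]
  | cons d S ih =>
    obtain ⟨l, t⟩ := d
    have h1 := ih fun p' hp' => h p' (List.mem_cons_of_mem _ hp')
    obtain ⟨h2, h2'⟩ := h _ (List.mem_cons_self ..)
    have h3 := sz_T3 hc t h2'
    have h4 := hc l
    have h7 : t.length ≤ (fl (lo t)).length := by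
      have := fl_length_ge (lo t) (by
        intro p hp
        obtain ⟨P, hP, rfl⟩ := List.mem_map.1 hp
        obtain ⟨h9, h10⟩ := h2' P hP
        have h11 := fl_length_ge P.2 h10
        have h12 := List.length_pos_of_ne_nil h9
        intro h13
        have h14 : fl P.2 = [] := h13
        rw [h14] at h11
        exact h9 (by simpa using h11))
      simpa [lo] using this
    have h8 := List.length_pos_of_ne_nil h2
    have e : (fl (lo2 ((l, t) :: S))).length = (fl (lo t)).length + (fl (lo2 S)).length := by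
      simp [fl, lo, lo2]
    rw [sz_cons, sz_pair, e, Nat.mul_add]
    simp only at h8
    have h5 : c + 3 ≤ (c + 3) * (fl (lo t)).length := Nat.le_mul_of_pos_right _ (by omega)
    have h6 : (4 * c + 10) * (fl (lo t)).length = (3 * c + 7) * (fl (lo t)).length +
      (c + 3) * (fl (lo t)).length := by ring
    omega

theorem sz_dems (D : List (Leaf N T × W N T)) (h : ∀ d ∈ D, 2 ≤ d.2.length) :
    sz D ≤ (3 * c + 5) * sm D + 1 := by
  induction D with
  | nil => simp [sz_nil]
  | cons d D ih =>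
    obtain ⟨l, u⟩ := d
    have h1 := ih fun p' hp' => h p' (List.mem_cons_of_mem _ hp')
    have h2 := h _ (List.mem_cons_self ..)
    have h3 := sz_W hc u
    have h4 := hc l
    rw [sz_cons, sz_pair, sm_cons, Nat.mul_add]
    simp only at h2
    obtain ⟨n, hn⟩ := Nat.exists_eq_add_of_le' h2
    rw [hn] at h3 ⊢
    have e : (3 * c + 5) * (n + 2 - 1) = (3 * c + 5) * n + (3 * c + 5) := by
      rw [show n + 2 - 1 = n + 1 by omega]; ring
    have e2 : (c + 1) * (n + 2) = (c + 1) * n + 2 * (c + 1) := by ring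
    have e3 : (c + 1) * n ≤ (3 * c + 5) * n := Nat.mul_le_mul_right _ (by omega)
    show sz l + sz u + 1 + sz D + 1 ≤ (3 * c + 5) * (n + 2 - 1) + (3 * c + 5) * sm D + 1
    rw [e]
    omega

end Sizes

omit [Nonempty F] [Finite F] in
theorem fl_length_le_sz (q : List (Leaf N T × W N T)) : (fl q).length ≤ sz q := by
  induction q with
  | nil => simp
  | cons p q ih =>
    obtain ⟨l, u⟩ := p
    rw [sz_cons, sz_pair]
    have h1 := length_le_sz u
    have e : (fl ((l, u) :: q)).length = u.length + (fl q).length := by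
      simp [fl]
    omega

theorem sz_good {c : ℕ} (hc : ∀ l : Leaf N T, sz l ≤ c) (hh : ∀ h : Hx N F T, sz h ≤ c)
    (x : Ins N F T) (hg : good x = true) : sz x ≤ (3 * c + 20) * ((ms x).length + 1) := by
  obtain ⟨h, u₁, u₂, D⟩ := x
  have h0 := hh h
  have h1 := sz_W hc u₁
  have h2 := sz_W hc u₂
  rw [sz_pair, sz_pair, sz_pair]
  refine (show sz h + (sz u₁ + (sz u₂ + sz D + 1) + 1) + 1 ≤
    c + (sz u₁ + (sz u₂ + sz D + 1) + 1) + 1 by omega).trans ?_
  clear h0
  cases h with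
  | inl h =>
    rw [good_inl] at hg
    simp only at hg
    obtain ⟨rfl, rfl⟩ := hg
    rw [ms_inl, sz_nil, sz_nil]
    simp only
    have e : (c + 1) * u₁.length ≤ (c + 1) * (4 * (u₁.length - 1) + 1) :=
      Nat.mul_le_mul_left _ (by omega)
    have e2 : (3 * c + 20) * (4 * (u₁.length - 1) + 1) = (c + 1) * (4 * (u₁.length - 1) + 1) +
      (2 * c + 19) * (4 * (u₁.length - 1) + 1) := by ring
    have e3 : 2 * c + 19 ≤ (2 * c + 19) * (4 * (u₁.length - 1) + 1) :=
      Nat.le_mul_of_pos_right _ (by omega)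
    omega
  | inr h =>
    rw [good_inr] at hg
    simp only at hg
    have h3 := sz_dems hc D hg
    rw [ms_inr]
    simp only
    set M := (mx ((u₁ ++ u₂) :: D.map fun d => d.2.tail)).length
    have e : (3 * c + 20) * (2 * (u₁.length + u₂.length + sm D) + 3 * M + 1) =
      (c + 1) * u₁.length + (c + 1) * u₂.length + (3 * c + 5) * sm D + (3 * c + 20) +
      ((5 * c + 39) * u₁.length + (5 * c + 39) * u₂.length + (3 * c + 35) * sm D +
        (3 * c + 20) * (3 * M)) := by ring
    omega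

end Pool.Agent.Lib.LinSpace.Idx
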