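import Mathlib

/-!
Indexed grammars (A. V. Aho, Indexed grammars - an extension of context-free grammars,
J. ACM 15 (1968)).
-/

set_option autoImplicit false

namespace Pool.Agent.Lib.LinSpace.Idx

/-- An indexed grammar over the alphabet `T`. -/
structure IndexedGrammar (T : Type) where
  /-- the nonterminals -/
  N : Type
  /-- the flags -/
  F : Type
  /-- there are finitely many nonterminals -/
  finN : Finite N
  /-- there are finitely many flags -/
  finF : Finite F
  /-- the start symbol -/
  start : N
  /-- the productions `A → α` (the triples `(A, none, α)`) and `A f → α` (the triples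
  `(A, some f, α)`), where `α` is a word of letters and of nonterminals followed by flags -/
  prod : Set (N × Option F × List ((N × List F) ⊕ T))
  /-- there are finitely many productions -/
  finProd : prod.Finite

namespace IndexedGrammar

variable {T : Type} (G : IndexedGrammar T)

/-- Symbols of sentential forms: nonterminals followed by flags, and letters. -/
abbrev Sym := (G.N × List G.F) ⊕ T

/-- Append flags to the flags of a nonterminal. -/
def addFlags (σ : List G.F) : G.Sym → G.Sym
  | .inl (A, η) => .inl (A, η ++ σ)
  | .inr a => .inr a

/-- One derivation step: `u (A o σ) v ⇒ u α' v`, where `(A, o, α)` is a production and `α'` is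
`α` with the flags `σ` appended to the flags of every nonterminal. -/
def Step (x y : List G.Sym) : Prop :=
  ∃ u v A o α σ, (A, o, α) ∈ G.prod ∧ x = u ++ .inl (A, o.toList ++ σ) :: v ∧
    y = u ++ α.map (G.addFlags σ) ++ v

/-- The generated language. -/
def language : Language T :=
  {w | Relation.ReflTransGen G.Step [.inl (G.start, [])] (w.map .inr)}

end IndexedGrammar

end Pool.Agent.Lib.LinSpace.Idx
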