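import Pool.Agent.Lib.LinSpace.Idx.Complete
import Pool.Agent.Lib.LinSpace.Idx.Grammar

/-!
Indexed grammars generate deterministic context-sensitive languages.
-/

set_option autoImplicit false
set_option linter.unusedSimpArgs false
set_option linter.unusedSectionVars false

namespace Pool.Agent.Lib.LinSpace.Idx

namespace IndexedGrammar

variable {T : Type} (G : IndexedGrammar T)

/-- Symbols with at most `m` flags. -/
def SB (m : ℕ) : Set G.Sym := {x | ∀ A η, x = .inl (A, η) → η.length ≤ m}

/-- Words with at most `m` symbols with at most `m` flags. -/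
def K (m : ℕ) : Set (List G.Sym) := {β | β.length ≤ m ∧ ∀ x ∈ β, x ∈ G.SB m}

theorem SB_finite [Finite T] (m : ℕ) : (G.SB m).Finite := by
  have := G.finN
  have := G.finF
  have h1 : (Set.range (fun p : G.N × {l : List G.F | l.length ≤ m} =>
      (.inl (p.1, p.2.1) : G.Sym))).Finite := by
    have := (List.finite_length_le G.F m).to_subtype
    exact Set.finite_range _
  have h2 : (Set.range (fun a : T => (.inr a : G.Sym))).Finite := Set.finite_range _
  refine (h1.union h2).subset ?_
  intro x hx
  rcases x with ⟨A, η⟩ | a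
  · exact Or.inl ⟨(A, ⟨η, hx A η rfl⟩), rfl⟩
  · exact Or.inr ⟨a, rfl⟩

theorem K_finite [Finite T] (m : ℕ) : (G.K m).Finite := by
  have := (G.SB_finite m).to_subtype
  have h := (List.finite_length_le (G.SB m) m).image (List.map Subtype.val)
  refine h.subset ?_
  rintro β ⟨h1, h2⟩
  refine ⟨β.attach.map fun x => ⟨x.1, h2 x.1 x.2⟩, ?_, ?_⟩
  · simpa using h1
  · rw [List.map_map]
    exact β.attach_map_subtype_val

/-- Items. -/
def It (m : ℕ) : Type := {β : List G.Sym // β ∈ G.K m}

/-- The associated grammar with stacks. -/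
def gram (m : ℕ) : Gram (G.It m) (Option G.F) T where
  eps β := β.1 = []
  term β a := β.1 = [.inr a]
  bin β γ δ := (∃ x, γ.1 = [x] ∧ β.1 = x :: δ.1 ∧ δ.1 ≠ []) ∨
    (∃ A, β.1 = [.inl (A, [])] ∧ (A, none, γ.1) ∈ G.prod ∧ δ.1 = [])
  push β f γ := ∃ B η g, f = some g ∧ β.1 = [.inl (B, η ++ [g])] ∧ γ.1 = [.inl (B, η)]
  pop β f γ := ∃ A g, f = some g ∧ β.1 = [.inl (A, [])] ∧ (A, some g, γ.1) ∈ G.prod

/-- The stack belonging to a list of flags. -/
def stk (σ : List G.F) : List (Option G.F) := σ.map some ++ [none]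

theorem stk_cons (σ : List G.F) : ∃ f τ, G.stk σ = f :: τ := by
  cases σ with
  | nil => exact ⟨none, [], rfl⟩
  | cons g σ => exact ⟨some g, σ.map some ++ [none], rfl⟩

theorem step_context {x y : List G.Sym} (h : G.Step x y) (u v : List G.Sym) :
    G.Step (u ++ x ++ v) (u ++ y ++ v) := by
  obtain ⟨u', v', A, o, α, σ, h1, rfl, rfl⟩ := h
  exact ⟨u ++ u', v' ++ v, A, o, α, σ, h1, by simp, by simp⟩

theorem derives_context {x y : List G.Sym} (h : Relation.ReflTransGen G.Step x y)
    (u v : List G.Sym) : Relation.ReflTransGen G.Step (u ++ x ++ v) (u ++ y ++ v) := by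
  induction h with
  | refl => exact .refl
  | tail _ h ih => exact ih.tail (G.step_context h u v)

theorem derives_append {x y x' y' : List G.Sym} (h : Relation.ReflTransGen G.Step x y)
    (h' : Relation.ReflTransGen G.Step x' y') :
    Relation.ReflTransGen G.Step (x ++ x') (y ++ y') := by
  have h1 := G.derives_context h [] x'
  have h2 := G.derives_context h' y []
  simp only [List.nil_append, List.append_nil] at h1 h2
  exact h1.trans h2

/-- Words of terminals, read as words of leaves. -/
def tw (N : Type) {T : Type} (w : List T) : W N T := w.map .ter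

theorem tw_eq_append {N : Type} {w : List T} {u v : W N T} (h : tw N w = u ++ v) :
    ∃ w₁ w₂, w = w₁ ++ w₂ ∧ u = tw N w₁ ∧ v = tw N w₂ := by
  obtain ⟨w₁, w₂, h1, h2, h3⟩ := List.map_eq_append_iff.1 h
  exact ⟨w₁, w₂, h1, h2.symm, h3.symm⟩

/-- From derivations with stacks to derivations in the indexed grammar. -/
theorem derives_of_R {m : ℕ} {τ : List (Option G.F)} {β : G.It m} {u : W (G.It m) T}
    (h : R (G.gram m) ∅ τ β u) : ∀ σ w, τ = G.stk σ → u = tw _ w →
      Relation.ReflTransGen G.Step (β.1.map (G.addFlags σ)) (w.map .inr) := by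
  induction h with
  | bot A => intro σ w h; simp [stk] at h
  | era h => exact absurd h (by simp)
  | eps h =>
    intro σ w _ hw
    have : w = [] := by simpa [tw] using hw.symm
    subst this
    have h' : _ = _ := h
    rw [h']
    exact .refl
  | @term f τ A a h =>
    intro σ w _ hw
    have h1 : w = [a] := by
      cases w with
      | nil => simp [tw] at hw
      | cons b w =>
        simp only [tw, List.map_cons, List.cons.injEq, Leaf.ter.injEq] at hw
        obtain ⟨rfl, hw⟩ := hw
        have : w = [] := by simpa using hw.symm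
        rw [this]
    subst h1
    have h' : _ = _ := h
    rw [h']
    exact .refl
  | @bin f τ A B C u v h _ _ ih1 ih2 =>
    intro σ w hσ hw
    obtain ⟨w₁, w₂, rfl, hu, hv⟩ := tw_eq_append hw.symm
    have h1 := ih1 σ w₁ hσ hu
    have h2 := ih2 σ w₂ hσ hv
    have h3 := G.derives_append h1 h2
    rw [List.map_append]
    rcases h with ⟨x, e1, e2, _⟩ | ⟨X, e1, e2, e3⟩
    · rw [e2, List.map_cons]
      rw [e1] at h3
      exact h3
    · rw [e3] at h3
      rw [e1]
      refine .head ?_ h3
      refine ⟨[], [], X, none, B.1, σ, e2, ?_, ?_⟩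
      · simp [addFlags]
      · simp
  | @push f τ A B g u h _ ih =>
    intro σ w hσ hw
    obtain ⟨X, η, g', rfl, e1, e2⟩ := h
    have h1 := ih (g' :: σ) w (by rw [hσ]; rfl) hw
    rw [e2] at h1
    rw [e1]
    simpa [addFlags] using h1
  | @pop f τ A B u h _ ih =>
    intro σ w hσ hw
    obtain ⟨X, g', rfl, e1, e2⟩ := h
    cases σ with
    | nil => simp [stk] at hσ
    | cons g σ =>
      simp only [stk, List.map_cons, List.cons_append, List.cons.injEq, Option.some.injEq] at hσ
      obtain ⟨rfl, hσ⟩ := hσ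
      have h1 := ih σ w hσ hw
      rw [e1]
      refine .head ?_ h1
      refine ⟨[], [], X, some g', B.1, σ, e2, ?_, ?_⟩
      · simp [addFlags]
      · simp
  | hat f A =>
    intro σ w _ hw
    exfalso
    cases w with
    | nil => simp [tw] at hw
    | cons b w => simp [tw] at hw

/-- The terminal words derived from a symbol. -/
def D (m : ℕ) (x : G.Sym) (w : List T) : Prop :=
  match x with
  | .inl p => ∃ β : G.It m, β.1 = [.inl (p.1, [])] ∧ R (G.gram m) ∅ (G.stk p.2) β (tw _ w)
  | .inr a => w = [a]

theorem R_flags {m : ℕ} (hm : 1 ≤ m) (B : G.N) (w : List T) (n : ℕ) : ∀ (η σ : List G.F)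
    (β : G.It m), η.length = n → β.1 = [.inl (B, η)] → G.D m (.inl (B, η ++ σ)) w →
    R (G.gram m) ∅ (G.stk σ) β (tw _ w) := by
  induction n with
  | zero =>
    intro η σ β hη hβ hD
    have : η = [] := List.eq_nil_of_length_eq_zero hη
    subst this
    obtain ⟨γ, h1, h2⟩ := hD
    have : β = γ := Subtype.ext (by rw [hβ, h1])
    subst this
    exact h2
  | succ n ih =>
    intro η σ β hη hβ hD
    rcases List.eq_nil_or_concat η with h | ⟨η', g, rfl⟩
    · rw [h] at hη; simp at hη
    · rw [List.concat_eq_append] at *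
      have hlen : η'.length = n := by simpa using hη
      have hmem : [.inl (B, η')] ∈ G.K m := by
        refine ⟨by simpa using hm, ?_⟩
        intro x hx A η'' hx'
        rw [List.mem_singleton] at hx
        rw [hx] at hx'
        have h1 : η' = η'' := by
          have := Sum.inl.inj hx'
          exact (Prod.mk.inj this).2
        subst h1
        have h2 := β.2.2 (.inl (B, η' ++ [g])) (by rw [hβ]; simp) B (η' ++ [g]) rfl
        rw [List.length_append] at h2
        omega
      have h1 := ih η' (g :: σ) ⟨_, hmem⟩ hlen rfl (by simpa using hD)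
      obtain ⟨f, τ, hfτ⟩ := G.stk_cons σ
      rw [hfτ]
      refine R.push (B := (⟨_, hmem⟩ : G.It m)) (g := some g) ⟨B, η', g, rfl, hβ, rfl⟩ ?_
      rw [← hfτ]
      exact h1

theorem R_word {m : ℕ} (hm : 1 ≤ m) (σ : List G.F) (x : List G.Sym) : ∀ (β : G.It m)
    (ws : List (List T)), β.1 = x → List.Forall₂ (G.D m) (x.map (G.addFlags σ)) ws →
    R (G.gram m) ∅ (G.stk σ) β (tw _ ws.flatten) := by
  obtain ⟨f, τ, hfτ⟩ := G.stk_cons σ
  induction x with
  | nil =>
    intro β ws hβ hf
    rw [List.map_nil, List.forall₂_nil_left_iff] at hf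
    subst hf
    rw [hfτ]
    exact R.eps hβ
  | cons x l ih =>
    intro β ws hβ hf
    rw [List.map_cons] at hf
    obtain ⟨w, ws', hw, hws, rfl⟩ := List.forall₂_cons_left_iff.1 hf
    have hx : ∀ γ : G.It m, γ.1 = [x] → R (G.gram m) ∅ (G.stk σ) γ (tw _ w) := by
      intro γ hγ
      rcases x with ⟨B, η⟩ | a
      · exact G.R_flags hm B w η.length η σ γ rfl hγ hw
      · have h1 : w = [a] := hw
        subst h1
        rw [hfτ]
        exact R.term hγ
    by_cases hl : l = []
    · subst hl
      rw [List.map_nil, List.forall₂_nil_left_iff] at hws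
      subst hws
      simpa using hx β hβ
    · have hxK : [x] ∈ G.K m := by
        refine ⟨by simpa using hm, ?_⟩
        intro y hy
        rw [List.mem_singleton] at hy
        subst hy
        exact β.2.2 _ (by rw [hβ]; simp)
      have hlK : l ∈ G.K m := by
        refine ⟨?_, ?_⟩
        · have := β.2.1
          rw [hβ, List.length_cons] at this
          omega
        · intro y hy
          exact β.2.2 _ (by rw [hβ]; simp [hy])
      have h1 := hx ⟨[x], hxK⟩ rfl
      have h2 := ih ⟨l, hlK⟩ ws' rfl hws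
      rw [List.flatten_cons, tw, List.map_append]
      rw [hfτ] at h1 h2 ⊢
      exact R.bin (G := G.gram m) (A := β) (Or.inl ⟨x, rfl, hβ, hl⟩) h1 h2

theorem forall₂_append_left {α β : Type} {r : α → β → Prop} {x y : List α} {z : List β}
    (h : List.Forall₂ r (x ++ y) z) : ∃ z₁ z₂, z = z₁ ++ z₂ ∧ List.Forall₂ r x z₁ ∧
      List.Forall₂ r y z₂ := by
  induction x generalizing z with
  | nil => exact ⟨[], z, rfl, .nil, h⟩
  | cons a x ih =>
    rw [List.cons_append] at h
    obtain ⟨b, z', h1, h2, rfl⟩ := List.forall₂_cons_left_iff.1 h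
    obtain ⟨z₁, z₂, rfl, h3, h4⟩ := ih h2
    exact ⟨b :: z₁, z₂, rfl, .cons h1 h3, h4⟩

theorem forall₂_append' {α β : Type} {r : α → β → Prop} {x y : List α} {z₁ z₂ : List β}
    (h₁ : List.Forall₂ r x z₁) (h₂ : List.Forall₂ r y z₂) :
    List.Forall₂ r (x ++ y) (z₁ ++ z₂) := by
  induction h₁ with
  | nil => exact h₂
  | cons h _ ih => exact .cons h ih

/-- From derivations in the indexed grammar to derivations with stacks. -/
theorem D_of_derives {m : ℕ} (hm : 1 ≤ m) (hP : ∀ A o α, (A, o, α) ∈ G.prod → α ∈ G.K m)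
    {x : List G.Sym} {w : List T} (h : Relation.ReflTransGen G.Step x (w.map .inr)) :
    ∃ ws, List.Forall₂ (G.D m) x ws ∧ ws.flatten = w := by
  induction h using Relation.ReflTransGen.head_induction_on with
  | refl =>
    induction w with
    | nil => exact ⟨[], .nil, rfl⟩
    | cons a w ih =>
      obtain ⟨ws, h1, h2⟩ := ih
      exact ⟨[a] :: ws, .cons rfl h1, by rw [List.flatten_cons, h2]; rfl⟩
  | head h _ ih =>
    obtain ⟨ws, h1, h2⟩ := ih
    obtain ⟨u, v, A, o, α, σ, h3, rfl, rfl⟩ := h
    rw [List.append_assoc] at h1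
    obtain ⟨wu, wr, rfl, h4, h5⟩ := forall₂_append_left h1
    obtain ⟨wα, wv, rfl, h6, h7⟩ := forall₂_append_left h5
    refine ⟨wu ++ wα.flatten :: wv, forall₂_append' h4 (.cons ?_ h7), ?_⟩
    · have hαK := hP A o α h3
      have h8 := G.R_word hm σ α ⟨α, hαK⟩ wα rfl h6
      have hA : [.inl (A, [])] ∈ G.K m := by
        refine ⟨by simpa using hm, ?_⟩
        intro y hy B η hy'
        rw [List.mem_singleton] at hy
        rw [hy] at hy'
        have := (Prod.mk.inj (Sum.inl.inj hy')).2
        rw [← this]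
        simp
      have hnil : ([] : List G.Sym) ∈ G.K m := ⟨by simp, by simp⟩
      obtain ⟨f, τ, hfτ⟩ := G.stk_cons σ
      refine ⟨⟨_, hA⟩, rfl, ?_⟩
      cases o with
      | none =>
        show R (G.gram m) ∅ (G.stk σ) _ _
        have h9 : R (G.gram m) ∅ (G.stk σ) (⟨[], hnil⟩ : G.It m) [] := by
          rw [hfτ]; exact R.eps rfl
        rw [hfτ] at h8 h9 ⊢
        have := R.bin (G := G.gram m) (A := ⟨_, hA⟩) (Or.inr ⟨A, rfl, h3, rfl⟩) h8 h9
        rwa [List.append_nil] at this
      | some g =>
        show R (G.gram m) ∅ (some g :: G.stk σ) _ _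
        exact R.pop (G := G.gram m) ⟨A, g, rfl, rfl, h3⟩ h8
    · rw [← h2]
      simp

/-- Indexed languages are deterministic context-sensitive. -/
theorem language_mem_DCS [Finite T] : G.language ∈ DCS T := by
  have := G.finN
  have := G.finF
  obtain ⟨m, hm, hP⟩ : ∃ m, 1 ≤ m ∧ ∀ A o α, (A, o, α) ∈ G.prod → α ∈ G.K m := by
    have h1 : ∀ α : List G.Sym, ∃ m, α ∈ G.K m := by
      intro α
      induction α with
      | nil => exact ⟨0, by simp, by simp⟩
      | cons x α ih =>
        obtain ⟨m, h1, h2⟩ := ih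
        have h3 : ∃ k, x ∈ G.SB k := by
          rcases x with ⟨B, η⟩ | a
          · refine ⟨η.length, ?_⟩
            intro A η' h
            have := (Prod.mk.inj (Sum.inl.inj h)).2
            rw [this]
          · exact ⟨0, by intro A η' h; simp at h⟩
        obtain ⟨k, hk⟩ := h3
        refine ⟨m + k + 1, ?_, ?_⟩
        · rw [List.length_cons]; omega
        · intro y hy A η hy'
          rcases List.mem_cons.1 hy with rfl | hy
          · have := hk A η hy'; omega
          · have := h2 y hy A η hy'; omega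
    have hmono : ∀ {a b : ℕ} (_ : a ≤ b) {α : List G.Sym}, α ∈ G.K a → α ∈ G.K b := by
      intro a b hab α h
      exact ⟨h.1.trans hab, fun y hy A η hy' => (h.2 y hy A η hy').trans hab⟩
    choose f hf using h1
    obtain ⟨m, hm⟩ := (G.finProd.image fun p => f p.2.2).bddAbove
    refine ⟨m + 1, by omega, fun A o α h => ?_⟩
    exact hmono ((hm ⟨(A, o, α), h, rfl⟩ : f α ≤ m).trans (Nat.le_succ m)) (hf α)
  have hS : [.inl (G.start, [])] ∈ G.K m := by
    refine ⟨by simpa using hm, ?_⟩
    intro y hy B η hy'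
    rw [List.mem_singleton] at hy
    rw [hy] at hy'
    have := (Prod.mk.inj (Sum.inl.inj hy')).2
    rw [← this]
    simp
  have : Finite (G.It m) := (G.K_finite m).to_subtype
  have : Nonempty (G.It m) := ⟨⟨_, hS⟩⟩
  let _ : Enc T := encFinite T
  classical
  refine mem_DCS_of_lin (f := fun w : List T => decide (R (G.gram m) ∅ [none]
    (⟨_, hS⟩ : G.It m) (w.map .ter))) ?_ G.language fun w => ?_
  · exact (lin_R (G.gram m) ∅ none ⟨_, hS⟩).of_eq fun w => by congr
  · rw [decide_eq_true_eq]
    constructor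
    · intro h
      have h1 := G.derives_of_R h [] w rfl rfl
      show Relation.ReflTransGen G.Step [.inl (G.start, [])] (w.map .inr)
      simpa [addFlags] using h1
    · intro h
      obtain ⟨ws, h1, h2⟩ := G.D_of_derives hm hP h
      obtain ⟨w', ws', h3, h4, rfl⟩ := List.forall₂_cons_left_iff.1 h1
      rw [List.forall₂_nil_left_iff] at h4
      subst h4
      obtain ⟨β, h5, h6⟩ := h3
      have h7 : β = ⟨_, hS⟩ := Subtype.ext h5
      rw [h7] at h6
      have h8 : w' = w := by simpa using h2
      rw [h8] at h6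
      exact h6

end IndexedGrammar

end Pool.Agent.Lib.LinSpace.Idx
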