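import Pool.Agent.Lib.LinSpace.Idx.Basic

/-!
The two decompositions of derivations: at a central node, and at a critical level of the stack.
-/

set_option autoImplicit false
set_option linter.unusedSimpArgs false

namespace Pool.Agent.Lib.LinSpace.Idx

variable {N F T : Type} {G : Gram N F T} {E E' : Set N}

/-! ### Extending spines -/

theorem Sp.inv {g : F} {τ : List F} {s e : Sx N F} {u₁ u₂ : W N T}
    (h : Sp G E (g :: τ) s e u₁ u₂) : ∃ s' A X p₁ p₂, ∃ q₁ q₂ : List (Leaf N T × W N T),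
      e = .inl X ∧ Sp G E τ s s' p₁ p₂ ∧ pu G s' g A ∧
      R G (Er G E τ) [g] A (top q₁ ++ .hat X :: top q₂) ∧
      (∀ p ∈ q₁, Dm G E τ p.1 p.2) ∧ (∀ p ∈ q₂, Dm G E τ p.1 p.2) ∧
      u₁ = p₁ ++ fl q₁ ∧ u₂ = fl q₂ ++ p₂ := by
  cases h with
  | @cons _ _ s' _ A X p₁ p₂ q₁ q₂ h1 h2 h3 h4 h5 =>
    exact ⟨s', A, X, p₁, p₂, q₁, q₂, rfl, h1, h2, h3, h4, h5, rfl, rfl⟩

theorem R.clean {τ : List F} {g : F} {A X : N} {q₁ q₂ : List (Leaf N T × W N T)}
    (h : R G (Er G E τ) [g] A (top q₁ ++ .hat X :: top q₂))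
    (h1 : ∀ p ∈ q₁, Dm G E τ p.1 p.2) (h2 : ∀ p ∈ q₂, Dm G E τ p.1 p.2) :
    R G (Er G E τ) [g] A (top (q₁.filter fun p => !p.2.isEmpty) ++ .hat X ::
      top (q₂.filter fun p => !p.2.isEmpty)) := by
  have key : ∀ q : List (Leaf N T × W N T), fl (q.map fun p =>
      (p.1, if p.2.isEmpty then ([] : W N T) else [p.1])) =
      top (q.filter fun p => !p.2.isEmpty) := by
    intro q
    induction q with
    | nil => rfl
    | cons p q ih =>
      rw [List.map_cons, fl, List.flatMap_cons, List.filter_cons]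
      rw [fl] at ih
      rw [ih]
      cases hp : p.2.isEmpty <;> simp
  have keyD : ∀ q : List (Leaf N T × W N T), (∀ p ∈ q, Dm G E τ p.1 p.2) →
      ∀ p ∈ q.map fun p => (p.1, if p.2.isEmpty then ([] : W N T) else [p.1]),
        Dm G (Er G E τ) [] p.1 p.2 := by
    intro q hq p hp
    obtain ⟨p', hp', rfl⟩ := List.mem_map.1 hp
    cases hp2 : p'.2.isEmpty
    · simpa [hp2] using Dm_self p'.1
    · have h3 : p'.2 = [] := by simpa using hp2
      have h4 := hq p' hp'
      rw [h3] at h4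
      simp only [hp2, if_true]
      cases hl : p'.1 with
      | bot D => rw [hl] at h4; exact R.era h4
      | ter a => rw [hl] at h4; exact absurd (show ([] : W N T) = [.ter a] from h4) (by simp)
      | hat Y => rw [hl] at h4; exact absurd h4.2 (by simp)
  have := R.comp (E := Er G E τ) (τ₂ := []) h (le_of_eq Er_nil.symm)
    ((q₁.map fun p => (p.1, if p.2.isEmpty then ([] : W N T) else [p.1])) ++
      (.hat X, [.hat X]) :: (q₂.map fun p => (p.1, if p.2.isEmpty then ([] : W N T) else [p.1])))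
    (by simp [top, Function.comp_def]) (by
      intro p hp
      rcases List.mem_append.1 hp with hp | hp
      · exact keyD q₁ h1 p hp
      · rcases List.mem_cons.1 hp with hp | hp
        · subst hp; exact Dm_self _
        · exact keyD q₂ h2 p hp)
  have e1 := key q₁
  have e2 := key q₂
  rw [fl] at e1 e2 this
  rw [List.flatMap_append, List.flatMap_cons, e1, e2] at this
  simpa using this

theorem fl_filter (q : List (Leaf N T × W N T)) :
    fl (q.filter fun p => !p.2.isEmpty) = fl q := by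
  induction q with
  | nil => rfl
  | cons p q ih =>
    rw [List.filter_cons]
    cases hp : p.2.isEmpty
    · simp only [fl, Bool.not_false, if_true, List.flatMap_cons] at ih ⊢
      rw [ih]
    · have h3 : p.2 = [] := by simpa using hp
      simp only [fl, Bool.not_true, Bool.false_eq_true, if_false, List.flatMap_cons] at ih ⊢
      rw [ih, h3]
      rfl

/-- Inversion with nonempty expansions. -/
theorem Sp.inv' {g : F} {τ : List F} {s e : Sx N F} {u₁ u₂ : W N T}
    (h : Sp G E (g :: τ) s e u₁ u₂) : ∃ s' A X p₁ p₂, ∃ q₁ q₂ : List (Leaf N T × W N T),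
      e = .inl X ∧ Sp G E τ s s' p₁ p₂ ∧ pu G s' g A ∧
      R G (Er G E τ) [g] A (top q₁ ++ .hat X :: top q₂) ∧
      (∀ p ∈ q₁, Dm G E τ p.1 p.2 ∧ p.2 ≠ []) ∧ (∀ p ∈ q₂, Dm G E τ p.1 p.2 ∧ p.2 ≠ []) ∧
      u₁ = p₁ ++ fl q₁ ∧ u₂ = fl q₂ ++ p₂ := by
  obtain ⟨s', A, X, p₁, p₂, q₁, q₂, he, a1, a2, a3, a4, a5, h1, h2⟩ := h.inv
  refine ⟨s', A, X, p₁, p₂, _, _, he, a1, a2, R.clean a3 a4 a5, ?_, ?_, ?_, ?_⟩
  · intro p hp
    rw [List.mem_filter] at hp
    exact ⟨a4 p hp.1, by simpa using hp.2⟩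
  · intro p hp
    rw [List.mem_filter] at hp
    exact ⟨a5 p hp.1, by simpa using hp.2⟩
  · rw [fl_filter, h1]
  · rw [fl_filter, h2]

theorem Sp.inv_nil {s e : Sx N F} {u₁ u₂ : W N T}
    (h : Sp G E [] s e u₁ u₂) : e = s ∧ u₁ = [] ∧ u₂ = [] := by
  cases h with
  | nil => exact ⟨rfl, rfl, rfl⟩

/-- Replace the end of a spine by a node below it. -/
theorem Sp.step {g : F} {τ : List F} {s : Sx N F} {X B : N} {u₁ u₂ : W N T}
    (h : Sp G E (g :: τ) s (.inl X) u₁ u₂) {z₁ z₂ : List (Leaf N T × W N T)}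
    (hR : R G (Er G E τ) [g] X (top z₁ ++ .hat B :: top z₂))
    (h1 : ∀ p ∈ z₁, Dm G E τ p.1 p.2) (h2 : ∀ p ∈ z₂, Dm G E τ p.1 p.2) :
    Sp G E (g :: τ) s (.inl B) (u₁ ++ fl z₁) (fl z₂ ++ u₂) := by
  obtain ⟨s', A, X', p₁, p₂, q₁, q₂, he, a1, a2, a3, a4, a5, rfl, rfl⟩ := h.inv
  cases he
  have b := R.plug' a3 hR
  have := Sp.cons (q₁ := q₁ ++ z₁) (q₂ := z₂ ++ q₂) (X := B) a1 a2
    (by simpa [top, List.append_assoc] using b)
    (fun p hp => (List.mem_append.1 hp).elim (a4 p) (h1 p))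
    (fun p hp => (List.mem_append.1 hp).elim (h2 p) (a5 p))
  simpa [fl, List.flatMap_append, List.append_assoc] using this

theorem Sp.binL {ρ : List F} {s : Sx N F} {X B C : N} {u₁ u₂ v : W N T}
    (h : Sp G E ρ s (.inl X) u₁ u₂) (hρ : ρ ≠ []) (hb : G.bin X B C) (hv : R G E ρ C v) :
    Sp G E ρ s (.inl B) u₁ (v ++ u₂) := by
  cases ρ with
  | nil => exact absurd rfl hρ
  | cons g τ =>
    obtain ⟨z, a, b, c⟩ := R.cut hv [g] τ rfl
    have := h.step (B := B) (z₁ := []) (z₂ := z) (by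
      simpa [top] using R.bin hb (R.hat g B) a) (by simp) (fun p hp => (c p hp).1)
    rw [b] at this
    simpa [fl] using this

theorem Sp.binR {ρ : List F} {s : Sx N F} {X B C : N} {u₁ u₂ v : W N T}
    (h : Sp G E ρ s (.inl X) u₁ u₂) (hρ : ρ ≠ []) (hb : G.bin X B C) (hv : R G E ρ B v) :
    Sp G E ρ s (.inl C) (u₁ ++ v) u₂ := by
  cases ρ with
  | nil => exact absurd rfl hρ
  | cons g τ =>
    obtain ⟨z, a, b, c⟩ := R.cut hv [g] τ rfl
    have := h.step (B := C) (z₁ := z) (z₂ := []) (by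
      simpa [top] using R.bin hb a (R.hat g C)) (fun p hp => (c p hp).1) (by simp)
    rw [b] at this
    simpa [fl] using this

theorem Sp.pushX {ρ : List F} {s : Sx N F} {X B : N} {g : F} {u₁ u₂ : W N T}
    (h : Sp G E ρ s (.inl X) u₁ u₂) (hp : G.push X g B) :
    Sp G E (g :: ρ) s (.inl B) u₁ u₂ := by
  have := Sp.cons (q₁ := []) (q₂ := []) (X := B) h (show pu G (.inl X) g B from hp)
    (by simpa using R.hat g B) (by simp) (by simp)
  simpa [fl] using this

theorem Sp.popX {g : F} {τ : List F} {s : Sx N F} {X B : N} {u₁ u₂ : W N T}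
    (h : Sp G E (g :: τ) s (.inl X) u₁ u₂) (hτ : τ ≠ []) (hp : G.pop X g B) :
    Sp G E τ s (.inl B) u₁ u₂ := by
  obtain ⟨s', A, X', p₁, p₂, q₁, q₂, he, a1, a2, a3, a4, a5, rfl, rfl⟩ := h.inv
  cases he
  cases τ with
  | nil => exact absurd rfl hτ
  | cons g₂ τ₂ =>
    obtain ⟨s'', A₂, Y, r₁, r₂, m₁, m₂, he', b1, b2, b3, b4, b5, _, _⟩ := a1.inv
    subst he'
    have c1 := R.plug' a3 (R.pop hp (R.bot B))
    obtain ⟨Q1, d1, d2⟩ := Dm.refine (τ₁ := [g₂]) (τ₂ := τ₂) q₁ a4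
    obtain ⟨Q2, e1, e2⟩ := Dm.refine (τ₁ := [g₂]) (τ₂ := τ₂) q₂ a5
    have c2 := R.comp (E := Er G E τ₂) (τ₂ := [g₂]) c1 (by
      rw [show g₂ :: τ₂ = [g₂] ++ τ₂ from rfl, Er_append])
      ((Q1.map fun p => (p.1, top p.2)) ++ (.bot B, [.hat B]) ::
        (Q2.map fun p => (p.1, top p.2))) (by
        rw [top, List.map_append, List.map_cons]
        have h1 := top_map_top Q1
        have h2 := top_map_top Q2
        have h3 := top_lo Q1
        have h4 := top_lo Q2
        rw [d1] at h3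
        rw [e1] at h4
        rw [top] at h1 h2
        rw [h1, h2, ← h3, ← h4]
        simp) (by
        intro p hp
        rcases List.mem_append.1 hp with hp | hp
        · obtain ⟨P, hP, rfl⟩ := List.mem_map.1 hp
          exact (d2 P hP).1
        · rcases List.mem_cons.1 hp with hp | hp
          · subst hp; exact R.hat g₂ B
          · obtain ⟨P, hP, rfl⟩ := List.mem_map.1 hp
            exact (e2 P hP).1)
    have c3 : R G (Er G E τ₂) [g₂] Y (top (Q1.flatMap Prod.snd) ++ .hat B ::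
        top (Q2.flatMap Prod.snd)) := by
      refine R.push a2 ?_
      have := c2
      rw [fl, List.flatMap_append, List.flatMap_cons] at this
      have h1 := fl_map_top Q1
      have h2 := fl_map_top Q2
      rw [fl] at h1 h2
      rw [h1, h2] at this
      simpa using this
    have c4 := a1.step (B := B) c3 (by
      intro p hp
      obtain ⟨P, hP, hr⟩ := List.mem_flatMap.1 hp
      exact ((d2 P hP).2 p hr).1) (by
      intro p hp
      obtain ⟨P, hP, hr⟩ := List.mem_flatMap.1 hp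
      exact ((e2 P hP).2 p hr).1)
    rw [← fl_lo, ← fl_lo, d1, e1] at c4
    exact c4

/-- Closing a spine with a derivation from its end. -/
theorem Sp.close {ρ : List F} {s e : Sx N F} {u₁ u₂ : W N T}
    (h : Sp G E ρ s e u₁ u₂) : ∀ X v, e = .inl X → ρ ≠ [] → R G E ρ X v →
      ∃ f A, pu G s f A ∧ R G E [f] A (u₁ ++ v ++ u₂) := by
  induction h with
  | nil s => intro X v _ h; exact absurd rfl h
  | @cons τ s s' g A X p₁ p₂ q₁ q₂ hs hp hR hq₁ hq₂ ih =>
    intro X' v he _ hv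
    cases he
    obtain ⟨z, a, b, c⟩ := R.cut hv [g] τ rfl
    have h1 := R.plug' hR a
    have h2 := R.comp (E := E) (τ₂ := τ) h1 (le_refl _) (q₁ ++ z ++ q₂) (by simp [top]) (by
      intro p hp
      rcases List.mem_append.1 hp with hp | hp
      · rcases List.mem_append.1 hp with hp | hp
        · exact hq₁ p hp
        · exact (c p hp).1
      · exact hq₂ p hp)
    have h3 : fl (q₁ ++ z ++ q₂) = fl q₁ ++ v ++ fl q₂ := by
      simp only [fl, List.flatMap_append] at b ⊢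
      rw [b]
    rw [h3] at h2
    cases τ with
    | nil =>
      obtain ⟨rfl, rfl, rfl⟩ := hs.inv_nil
      refine ⟨g, A, hp, ?_⟩
      simpa [List.append_assoc] using h2
    | cons g₂ τ₂ =>
      obtain ⟨_, _, Y, _, _, _, _, he', _⟩ := hs.inv
      subst he'
      obtain ⟨f, A', h4, h5⟩ := ih Y (fl q₁ ++ v ++ fl q₂) rfl (by simp) (R.push hp h2)
      refine ⟨f, A', h4, ?_⟩
      simpa [List.append_assoc] using h5

/-- The decomposition of a derivation at a central node. -/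
theorem R.central {ρ : List F} {X : N} {u : W N T} (h : R G E ρ X u) {s : Sx N F} {t : ℕ}
    (ht : 1 ≤ t) : ∀ u₁ u₂, ρ ≠ [] → Sp G E ρ s (.inl X) u₁ u₂ → t < u.length →
      ∃ ρ' X' B C v₁ vB vC v₂, Sp G E ρ' s (.inl X') v₁ v₂ ∧ G.bin X' B C ∧
        R G E ρ' B vB ∧ R G E ρ' C vC ∧ u₁ ++ u ++ u₂ = v₁ ++ vB ++ vC ++ v₂ ∧
        vB.length ≤ t ∧ vC.length ≤ t ∧ t < vB.length + vC.length := by
  induction h with
  | bot A => intro u₁ u₂ h; exact absurd rfl h
  | era _ => intro u₁ u₂ h; exact absurd rfl h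
  | eps _ => intro u₁ u₂ _ _ h; simp at h
  | term _ => intro u₁ u₂ _ _ h; simp at h; omega
  | hat f A => intro u₁ u₂ _ _ h; simp at h; omega
  | @bin f τ A B C u v h0 h1 h2 ih1 ih2 =>
    intro u₁ u₂ hρ hs ht'
    by_cases hu : t < u.length
    · obtain ⟨ρ', X', B', C', v₁, vB, vC, v₂, a1, a2, a3, a4, a5, a6⟩ :=
        ih1 u₁ (v ++ u₂) hρ (hs.binL hρ h0 h2) hu
      exact ⟨ρ', X', B', C', v₁, vB, vC, v₂, a1, a2, a3, a4, by rw [← a5]; simp, a6⟩
    · by_cases hv : t < v.length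
      · obtain ⟨ρ', X', B', C', v₁, vB, vC, v₂, a1, a2, a3, a4, a5, a6⟩ :=
          ih2 (u₁ ++ u) u₂ hρ (hs.binR hρ h0 h1) hv
        exact ⟨ρ', X', B', C', v₁, vB, vC, v₂, a1, a2, a3, a4, by rw [← a5]; simp, a6⟩
      · rw [List.length_append] at ht'
        exact ⟨_, A, B, C, u₁, u, v, u₂, hs, h0, h1, h2, by simp, by omega, by omega, ht'⟩
  | push h0 h1 ih =>
    intro u₁ u₂ hρ hs ht'
    exact ih u₁ u₂ (by simp) (hs.pushX h0) ht'
  | @pop f τ A B u h0 h1 ih =>
    intro u₁ u₂ hρ hs ht'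
    by_cases hτ : τ = []
    · subst hτ
      rcases R_nil_iff.1 h1 with h2 | ⟨_, h2⟩
      · rw [h2] at ht'; simp at ht'; omega
      · rw [h2] at ht'; simp at ht'
    · exact ih u₁ u₂ hτ (hs.popX hτ h0) ht'

/-- The start of a spine on the lowest level. -/
theorem Sp.start (f : F) (A : N) : Sp G E [f] (.inr (f, A)) (.inl A) [] [] :=
  Sp.single (G := G) (E := E) (g := f) (s := .inr (f, A)) (A := A) (X := A) (q₁ := []) (q₂ := [])
    (show ((f, A) : F × N) = (f, A) from rfl) (R.hat f A)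

/-! ### Small demands -/

/-- The first leaf of a word, as a set of demands for words with at most one leaf. -/
def Prof (G : Gram N F T) (E : Set N) (τ : List F) : Set (Leaf N T × Option (Leaf N T)) :=
  {p | Dm G E τ p.1 p.2.toList}

theorem toList_head? {u : W N T} (h : u.length ≤ 1) : (u.head?).toList = u := by
  match u, h with
  | [], _ => rfl
  | [a], _ => rfl

theorem fl_length_ge (t : List (Leaf N T × W N T)) (h : ∀ p ∈ t, p.2 ≠ []) :
    t.length ≤ (fl t).length := by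
  induction t with
  | nil => simp
  | cons p t ih =>
    rw [fl, List.flatMap_cons, List.length_append, List.length_cons]
    have h1 := ih fun p' hp' => h p' (List.mem_cons_of_mem _ hp')
    have h2 := List.length_pos_of_ne_nil (h p (List.mem_cons_self ..))
    rw [fl] at h1
    omega

theorem length_le_fl {t : List (Leaf N T × W N T)} {p : Leaf N T × W N T} (hp : p ∈ t) :
    p.2.length ≤ (fl t).length := by
  induction t with
  | nil => simp at hp
  | cons p' t ih =>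
    rw [fl, List.flatMap_cons, List.length_append]
    rcases List.mem_cons.1 hp with h | h
    · subst h; omega
    · have := ih h
      rw [fl] at this
      omega

theorem Prof_lower {τ₁ τ τ' : List F} (h : Prof G E τ ⊆ Prof G E τ') :
    Prof G E (τ₁ ++ τ) ⊆ Prof G E (τ₁ ++ τ') := by
  rintro ⟨l, o⟩ ho
  obtain ⟨t, a, b, c⟩ := Dm.cut (show Dm G E (τ₁ ++ τ) l o.toList from ho)
  have hE : Er G E τ ⊆ Er G E τ' := by
    intro D hD
    exact h (show (((.bot D, none) : Leaf N T × Option (Leaf N T)) ∈ Prof G E τ) from hD)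
  have := Dm.comp (E := E) (τ₂ := τ') a hE (by
    intro p hp
    have h1 : p.2.length ≤ 1 := by
      have h2 := length_le_fl hp
      rw [b] at h2
      cases o with
      | none => simp at h2; simp [h2]
      | some x => simpa using h2
    have h3 : ((p.1, p.2.head?) : Leaf N T × Option (Leaf N T)) ∈ Prof G E τ := by
      show Dm G E τ p.1 (p.2.head?).toList
      rw [toList_head? h1]
      exact (c p hp).1
    have h4 : Dm G E τ' p.1 (p.2.head?).toList := h h3
    rwa [toList_head? h1] at h4)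
  rw [b] at this
  exact this

theorem Prof_upper {τ₁ τ₁' τ : List F} (h : Prof G (Er G E τ) τ₁ ⊆ Prof G (Er G E τ) τ₁') :
    Prof G E (τ₁ ++ τ) ⊆ Prof G E (τ₁' ++ τ) := by
  rintro ⟨l, o⟩ ho
  obtain ⟨t, a, b, c⟩ := Dm.cut (show Dm G E (τ₁ ++ τ) l o.toList from ho)
  have h1 : (top t).length ≤ 1 := by
    have h2 := fl_length_ge t fun p hp => (c p hp).2
    rw [b] at h2
    rw [top, List.length_map]
    cases o with
    | none => simp at h2; simp [h2]
    | some x => simpa using h2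
  have h3 : ((l, (top t).head?) : Leaf N T × Option (Leaf N T)) ∈ Prof G (Er G E τ) τ₁ := by
    show Dm G (Er G E τ) τ₁ l ((top t).head?).toList
    rw [toList_head? h1]
    exact a
  have h4 : Dm G (Er G E τ) τ₁' l ((top t).head?).toList := h h3
  rw [toList_head? h1] at h4
  have := Dm.comp (E := E) (τ₂ := τ) h4 (le_refl _) (fun p hp => (c p hp).1)
  rw [b] at this
  exact this

/-! ### The critical level -/

/-- The sum of the lengths of words, each diminished by one. -/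
def sm {γ δ : Type} (l : List (γ × List δ)) : ℕ := (l.map fun d => d.2.length - 1).sum

theorem sm_nil {γ δ : Type} : sm ([] : List (γ × List δ)) = 0 := rfl

theorem sm_cons {γ δ : Type} (d : γ × List δ) (l : List (γ × List δ)) :
    sm (d :: l) = (d.2.length - 1) + sm l := by simp [sm]

theorem sm_append {γ δ : Type} (l l' : List (γ × List δ)) : sm (l ++ l') = sm l + sm l' := by
  simp [sm]

/-- The lowest words of a list of demands with three levels. -/
abbrev lo2 (S : List (Leaf N T × T3 N T)) : List (Leaf N T × W N T) :=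
  S.map fun d => (d.1, fl (lo d.2))

/-- The data of a derivation cut above and below a critical level. -/
structure Crit (G : Gram N F T) (E : Set N) (s e : Sx N F) (u₁ u₂ : W N T)
    (dems : List (Leaf N T × W N T)) (ρ : List F) (B : ℕ) where
  /-- the upper part of the stack -/
  τ₁ : List F
  /-- the critical flag -/
  g : F
  /-- the lower part of the stack -/
  τ₂ : List F
  /-- the nodes on the spine -/
  Y : N
  s₂ : Sx N F
  A : N
  p₁ : W N T
  p₂ : W N T
  q₁ : List (Leaf N T × W N T)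
  q₂ : List (Leaf N T × W N T)
  T₁ : T3 N T
  T₂ : T3 N T
  S : List (Leaf N T × T3 N T)
  hρ : ρ = τ₁ ++ g :: τ₂
  push : pu G s₂ g A
  upper : Sp G (Er G E (g :: τ₂)) τ₁ (.inl Y) e (top T₁) (top T₂)
  lower : Sp G E τ₂ s s₂ p₁ p₂
  middle : R G (Er G E τ₂) [g] A (top q₁ ++ .hat Y :: top q₂)
  hu₁ : u₁ = p₁ ++ fl q₁ ++ fl (lo T₁)
  hu₂ : u₂ = fl (lo T₂) ++ fl q₂ ++ p₂
  hdems : dems = lo2 S
  hq₁ : ∀ p ∈ q₁, Dm G E τ₂ p.1 p.2 ∧ p.2 ≠ []
  hq₂ : ∀ p ∈ q₂, Dm G E τ₂ p.1 p.2 ∧ p.2 ≠ []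
  hT₁ : ∀ P ∈ T₁, Dm G (Er G E τ₂) [g] P.1 (top P.2) ∧ P.2 ≠ [] ∧
    ∀ p ∈ P.2, Dm G E τ₂ p.1 p.2 ∧ p.2 ≠ []
  hT₂ : ∀ P ∈ T₂, Dm G (Er G E τ₂) [g] P.1 (top P.2) ∧ P.2 ≠ [] ∧
    ∀ p ∈ P.2, Dm G E τ₂ p.1 p.2 ∧ p.2 ≠ []
  hS : ∀ d ∈ S, Dm G (Er G E (g :: τ₂)) τ₁ d.1 (top d.2) ∧
    ∀ P ∈ d.2, Dm G (Er G E τ₂) [g] P.1 (top P.2) ∧ P.2 ≠ [] ∧
      ∀ p ∈ P.2, Dm G E τ₂ p.1 p.2 ∧ p.2 ≠ []
  small : 2 * (T₁.length + T₂.length + sm S) ≤ B
  large : B < 2 * (q₁.length + q₂.length + (T₁.flatMap Prod.snd).length +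
    (T₂.flatMap Prod.snd).length + sm (S.map fun d => (d.1, d.2.flatMap Prod.snd)))

theorem fl_of_nil (t : List (Leaf N T × W N T)) (h : ∀ p ∈ t, Dm G E [] p.1 p.2 ∧ p.2 ≠ []) :
    fl t = top t := by
  induction t with
  | nil => rfl
  | cons p t ih =>
    obtain ⟨a, b⟩ := h p (List.mem_cons_self ..)
    rw [fl, List.flatMap_cons, top, List.map_cons]
    have := ih fun p' hp' => h p' (List.mem_cons_of_mem _ hp')
    rw [fl, top] at this
    rw [this, Dm_nil a b]
    rfl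

theorem critical_aux {s e : Sx N F} {u₁ u₂ : W N T} {dems : List (Leaf N T × W N T)} {B : ℕ}
    (hB : B = u₁.length + u₂.length + sm dems) (hB1 : 1 ≤ B) {ρ : List F} :
    ∀ (τ₂ τ₁ : List F) (t₁ t₂ : List (Leaf N T × W N T))
      (S : List (Leaf N T × List (Leaf N T × W N T))) (p₁ p₂ : W N T) (s₁ : Sx N F),
      ρ = τ₁ ++ τ₂ →
      Sp G (Er G E τ₂) τ₁ s₁ e (top t₁) (top t₂) → Sp G E τ₂ s s₁ p₁ p₂ →
      u₁ = p₁ ++ fl t₁ → u₂ = fl t₂ ++ p₂ → (dems = S.map fun d => (d.1, fl d.2)) →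
      (∀ p ∈ t₁, Dm G E τ₂ p.1 p.2 ∧ p.2 ≠ []) → (∀ p ∈ t₂, Dm G E τ₂ p.1 p.2 ∧ p.2 ≠ []) →
      (∀ d ∈ S, Dm G (Er G E τ₂) τ₁ d.1 (top d.2) ∧ ∀ p ∈ d.2, Dm G E τ₂ p.1 p.2 ∧ p.2 ≠ []) →
      2 * (t₁.length + t₂.length + sm S) ≤ B → Nonempty (Crit G E s e u₁ u₂ dems ρ B) := by
  intro τ₂
  induction τ₂ with
  | nil =>
    intro τ₁ t₁ t₂ S p₁ p₂ s₁ _ _ hl hu₁ hu₂ hd ht₁ ht₂ hS hsm
    exfalso
    obtain ⟨rfl, rfl, rfl⟩ := hl.inv_nil
    have e1 := fl_of_nil t₁ ht₁
    have e2 := fl_of_nil t₂ ht₂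
    have e3 : sm dems = sm S := by
      rw [hd]
      clear hd hsm
      induction S with
      | nil => rfl
      | cons d S ih =>
        rw [List.map_cons, sm_cons, sm_cons, ih fun d' hd' => hS d' (List.mem_cons_of_mem _ hd')]
        have := fl_of_nil d.2 (hS d (List.mem_cons_self ..)).2
        simp only [this, top, List.length_map]
    have e4 : u₁.length = t₁.length := by rw [hu₁, e1]; simp [top]
    have e5 : u₂.length = t₂.length := by rw [hu₂, e2]; simp [top]
    omega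
  | cons g τ₂ ih =>
    intro τ₁ t₁ t₂ S p₁ p₂ s₁ hρ hup hl hu₁ hu₂ hd ht₁ ht₂ hS hsm
    obtain ⟨s₂, A, Y, r₁, r₂, q₁, q₂, hY, a1, a2, a3, a4, a5, a6, a7⟩ := hl.inv'
    subst hY
    have hEr : Er G E (g :: τ₂) = Er G (Er G E τ₂) [g] := Er_append (τ₁ := [g])
    have key : ∀ t : List (Leaf N T × W N T), (∀ p ∈ t, Dm G E (g :: τ₂) p.1 p.2 ∧ p.2 ≠ []) →
        ∃ Q : T3 N T, lo Q = t ∧ ∀ P ∈ Q, Dm G (Er G E τ₂) [g] P.1 (top P.2) ∧ P.2 ≠ [] ∧
          ∀ p ∈ P.2, Dm G E τ₂ p.1 p.2 ∧ p.2 ≠ [] := by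
      intro t ht
      obtain ⟨Q, b1, b2⟩ := Dm.refine (τ₁ := [g]) (τ₂ := τ₂) t fun p hp => (ht p hp).1
      refine ⟨Q, b1, fun P hP => ⟨(b2 P hP).1, ?_, (b2 P hP).2⟩⟩
      intro h0
      have h1 : ((P.1, fl P.2) : Leaf N T × W N T) ∈ t := by
        rw [← b1]; exact List.mem_map.2 ⟨P, hP, rfl⟩
      exact (ht _ h1).2 (by rw [h0]; rfl)
    obtain ⟨T₁, b1, b2⟩ := key t₁ ht₁
    obtain ⟨T₂, c1, c2⟩ := key t₂ ht₂
    have keyS : ∃ S3 : List (Leaf N T × T3 N T), (S3.map fun d => (d.1, lo d.2)) = S ∧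
        ∀ d ∈ S3, Dm G (Er G E (g :: τ₂)) τ₁ d.1 (top d.2) ∧
          ∀ P ∈ d.2, Dm G (Er G E τ₂) [g] P.1 (top P.2) ∧ P.2 ≠ [] ∧
          ∀ p ∈ P.2, Dm G E τ₂ p.1 p.2 ∧ p.2 ≠ [] := by
      clear hd hsm
      induction S with
      | nil => exact ⟨[], rfl, by simp⟩
      | cons d S ihS =>
        obtain ⟨S3, d1, d2⟩ := ihS fun d' hd' => hS d' (List.mem_cons_of_mem _ hd')
        obtain ⟨h1, h2⟩ := hS d (List.mem_cons_self ..)
        obtain ⟨Q, h3, h4⟩ := key d.2 h2
        refine ⟨(d.1, Q) :: S3, ?_, ?_⟩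
        · rw [List.map_cons, d1]
          simp only [h3]
        · intro d' hd'
          rcases List.mem_cons.1 hd' with h | h
          · subst h
            refine ⟨?_, h4⟩
            show Dm G (Er G E (g :: τ₂)) τ₁ d.1 (top Q)
            rw [← top_lo, h3]
            exact h1
          · exact d2 d' h
    obtain ⟨S3, d1, d2⟩ := keyS
    have hlen1 : t₁.length = T₁.length := by rw [← b1]; simp
    have hlen2 : t₂.length = T₂.length := by rw [← c1]; simp
    have hsmS : sm S = sm S3 := by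
      rw [← d1]
      simp only [sm, List.map_map]
      congr 1
      apply List.map_congr_left
      intro d _
      simp
    have hup' : Sp G (Er G E (g :: τ₂)) τ₁ (.inl Y) e (top T₁) (top T₂) := by
      rw [← top_lo T₁, ← top_lo T₂, b1, c1]
      exact hup
    have hdS : dems = lo2 S3 := by
      rw [hd, ← d1, List.map_map]
      rfl
    by_cases hcrit : B < 2 * (q₁.length + q₂.length + (T₁.flatMap Prod.snd).length +
        (T₂.flatMap Prod.snd).length + sm (S3.map fun d => (d.1, d.2.flatMap Prod.snd)))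
    · refine ⟨⟨τ₁, g, τ₂, Y, s₂, A, r₁, r₂, q₁, q₂, T₁, T₂, S3, hρ, a2, hup', a1, a3, ?_, ?_,
        hdS, a4, a5, b2, c2, d2, ?_, hcrit⟩⟩
      · rw [hu₁, a6, b1]
      · rw [hu₂, a7, c1, List.append_assoc]
      · omega
    · have hcomp := Sp.comp (E' := Er G E (g :: τ₂)) (E := Er G E τ₂) (τ₂ := [g]) hup'
        (le_of_eq hEr) (Sp.single (E := Er G E τ₂) a2 a3)
        (T₁.map fun p => (p.1, top p.2)) (T₂.map fun p => (p.1, top p.2))
        (top_map_top T₁) (top_map_top T₂) (by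
          intro p hp
          obtain ⟨P, hP, rfl⟩ := List.mem_map.1 hp
          exact (b2 P hP).1) (by
          intro p hp
          obtain ⟨P, hP, rfl⟩ := List.mem_map.1 hp
          exact (c2 P hP).1)
      rw [fl_map_top, fl_map_top] at hcomp
      refine ih (τ₁ ++ [g]) (q₁ ++ T₁.flatMap Prod.snd) (T₂.flatMap Prod.snd ++ q₂)
        (S3.map fun d => (d.1, d.2.flatMap Prod.snd)) r₁ r₂ s₂ (by rw [hρ]; simp)
        (by simpa [top] using hcomp) a1 ?_ ?_ ?_ ?_ ?_ ?_ ?_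
      · rw [hu₁, a6, ← b1, fl_lo]; simp [fl]
      · rw [hu₂, a7, ← c1, fl_lo]; simp [fl]
      · rw [hdS, List.map_map]
        apply List.map_congr_left
        intro d _
        simp only [Function.comp_apply, fl_lo]
      · intro p hp
        rcases List.mem_append.1 hp with hp | hp
        · exact a4 p hp
        · obtain ⟨P, hP, hr⟩ := List.mem_flatMap.1 hp
          exact (b2 P hP).2.2 p hr
      · intro p hp
        rcases List.mem_append.1 hp with hp | hp
        · obtain ⟨P, hP, hr⟩ := List.mem_flatMap.1 hp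
          exact (c2 P hP).2.2 p hr
        · exact a5 p hp
      · intro d hd'
        obtain ⟨d', hd2, rfl⟩ := List.mem_map.1 hd'
        obtain ⟨h1, h2⟩ := d2 d' hd2
        refine ⟨?_, ?_⟩
        · show Dm G (Er G E τ₂) (τ₁ ++ [g]) d'.1 (top (d'.2.flatMap Prod.snd))
          rw [← fl_map_top]
          exact Dm.comp (E' := Er G E (g :: τ₂)) (by rw [top_map_top]; exact h1) (le_of_eq hEr)
            (by
              intro p hp
              obtain ⟨P, hP, rfl⟩ := List.mem_map.1 hp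
              exact (h2 P hP).1)
        · intro p hp
          obtain ⟨P, hP, hr⟩ := List.mem_flatMap.1 hp
          exact (h2 P hP).2.2 p hr
      · rw [List.length_append, List.length_append]
        omega

theorem critical {s e : Sx N F} {u₁ u₂ : W N T} {dems : List (Leaf N T × W N T)} {B : ℕ}
    (hB : B = u₁.length + u₂.length + sm dems) (hB1 : 1 ≤ B) {ρ : List F}
    (hs : Sp G E ρ s e u₁ u₂) (hd : ∀ d ∈ dems, Dm G E ρ d.1 d.2 ∧ d.2 ≠ []) :
    Nonempty (Crit G E s e u₁ u₂ dems ρ B) := by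
  refine critical_aux hB hB1 ρ [] [] [] (dems.map fun d => (d.1, [(d.1, d.2)])) u₁ u₂ e rfl
    (Sp.nil e) hs (by simp [fl]) (by simp [fl]) ?_ (by simp) (by simp) ?_ ?_
  · rw [List.map_map]
    conv_lhs => rw [← List.map_id dems]
    apply List.map_congr_left
    intro d _
    simp [fl]
  · intro d hd'
    obtain ⟨d', hd2, rfl⟩ := List.mem_map.1 hd'
    refine ⟨Dm_self _, ?_⟩
    intro p hp
    rw [List.mem_singleton] at hp
    subst hp
    exact hd d' hd2
  · have : sm (dems.map fun d => (d.1, [(d.1, d.2)])) = 0 := by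
      clear hB hd
      induction dems with
      | nil => rfl
      | cons d l ih => rw [List.map_cons, sm_cons, ih]; simp
    rw [this]
    simp

end Pool.Agent.Lib.LinSpace.Idx
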